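import Pool.Agent.NKM.Defs

set_option autoImplicit false
open scoped Manifold ContDiff Topology
open Set Metric MeasureTheory InnerProductSpace
open Pool.Agent.NKM

namespace Pool.Agent.H300R3.WG

variable {n : ℕ} {X : Type} [TopologicalSpace X] [ChartedSpace (Fin n → ℂ) X]

/-- `ρ` is a local potential of the form `ω` with coefficients `g`, in the coordinates of the chart
`e` and on the open set `V`: it is smooth and `ω = i∂∂̄ρ` on `V`. -/
structure IsLocalPotential (g : HermitianMetric n X) (e : OpenPartialHomeomorph X (Fin n → ℂ))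
    (V : Set (Fin n → ℂ)) (ρ : (Fin n → ℂ) → ℝ) : Prop where
  /-- `e` is a chart of `X` -/
  mem_atlas : e ∈ atlas (Fin n → ℂ) X
  /-- `V` is open -/
  isOpen : IsOpen V
  /-- `V` lies in the image of the chart -/
  subset : V ⊆ e.target
  /-- `ρ` is smooth -/
  smooth : ContDiffOn ℝ ∞ ρ V
  /-- `ω = i∂∂̄ρ` -/
  eq_levi : ∀ p ∈ V, g.coeff e p = leviMatrix ρ p

/-- The Hermitian form `ω` is Kähler: it has a local potential near every point (equivalently it
is closed). -/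
def IsKahler (g : HermitianMetric n X) : Prop :=
  ∀ e ∈ atlas (Fin n → ℂ) X, ∀ p ∈ e.target, ∃ (V : Set (Fin n → ℂ)) (ρ : (Fin n → ℂ) → ℝ),
    p ∈ V ∧ IsLocalPotential g e V ρ

/-- `φ ∈ C^∞(X)` and `ω + i∂∂̄φ > 0`, so that `ω + i∂∂̄φ` is a Kähler form in the class of `ω`. -/
structure IsKahlerPotential (g : HermitianMetric n X) (φ : X → ℝ) : Prop where
  /-- `φ` is smooth in every chart -/
  smooth : ∀ e ∈ atlas (Fin n → ℂ) X, ContDiffOn ℝ ∞ (fun p => φ (e.symm p)) e.target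
  /-- `ω + i∂∂̄φ` is positive definite at every point -/
  pos : ∀ e ∈ atlas (Fin n → ℂ) X, ∀ p ∈ e.target, ∀ v : Fin n → ℂ, v ≠ 0 →
    0 < (hermForm (g.perturb φ e p) v).re

/-- `φ` is `π^*ω`-plurisubharmonic on the open subset `G` of `X × ℂ`, where `π : X × ℂ → X` is the
projection: it is upper semicontinuous, and for every local potential `ρ` of `ω` the function
`u = ρ + φ` is plurisubharmonic, that is, for every holomorphic disc `γ = (f, h)` in the domain of
`u`, the function `u ∘ γ` of one variable is dominated at the centre of the disc by every harmonic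
function which dominates it on the boundary circle. -/
structure IsOmegaPsh (g : HermitianMetric n X) (G : Set (X × ℂ)) (φ : X → ℂ → ℝ) : Prop where
  /-- upper semicontinuity -/
  usc : UpperSemicontinuousOn (fun q : X × ℂ => φ q.1 q.2) G
  /-- subharmonicity along holomorphic discs -/
  sub : ∀ (e : OpenPartialHomeomorph X (Fin n → ℂ)) (V : Set (Fin n → ℂ))
    (ρ : (Fin n → ℂ) → ℝ), IsLocalPotential g e V ρ →
    ∀ (c : ℂ) (r : ℝ) (f : ℂ → Fin n → ℂ) (h : ℂ → ℂ) (H : ℂ → ℝ), 0 < r →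
      AnalyticOnNhd ℂ f (closedBall c r) → AnalyticOnNhd ℂ h (closedBall c r) →
      HarmonicOnNhd H (closedBall c r) →
      (∀ ζ ∈ closedBall c r, f ζ ∈ V ∧ (e.symm (f ζ), h ζ) ∈ G) →
      (∀ ζ ∈ sphere c r, ρ (f ζ) + φ (e.symm (f ζ)) (h ζ) ≤ H ζ) →
        ρ (f c) + φ (e.symm (f c)) (h c) ≤ H c

/-- The annulus `A = {a < |z| < b}`. -/
def annulus (a b : ℝ) : Set ℂ := {z | a < ‖z‖ ∧ ‖z‖ < b}

/-- The closed annulus `{a ≤ |z| ≤ b}`. -/
def closedAnnulus (a b : ℝ) : Set ℂ := {z | a ≤ ‖z‖ ∧ ‖z‖ ≤ b}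

/-- `φ` is the weak geodesic joining `ω + i∂∂̄φ₁` and `ω + i∂∂̄φ₂`: a bounded function on
`X × {a ≤ |z| ≤ b}` which is `π^*ω`-plurisubharmonic on `X × A`, is continuous up to the boundary
with boundary values `φ₁` (for `|z| = a`) and `φ₂` (for `|z| = b`), and satisfies
`(π^*ω + i∂∂̄φ)^{n+1} = 0` on `X × A`. The last condition is expressed as maximality, to which it
is equivalent by the theory of Bedford and Taylor: every `π^*ω`-plurisubharmonic function `v` on
`X × A` with `v ≤ φ` off a compact subset of `X × A` satisfies `v ≤ φ` on `X × A`. -/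
structure IsWeakGeodesic (g : HermitianMetric n X) (φ₁ φ₂ : X → ℝ) (a b : ℝ)
    (φ : X → ℂ → ℝ) : Prop where
  /-- `φ` is bounded -/
  bounded : ∃ C : ℝ, ∀ x : X, ∀ z ∈ closedAnnulus a b, |φ x z| ≤ C
  /-- `π^*ω + i∂∂̄φ ≥ 0` on `X × A` -/
  psh : IsOmegaPsh g (univ ×ˢ annulus a b) φ
  /-- the boundary values on the inner circle -/
  inner : ∀ (x : X) (z : ℂ), ‖z‖ = a → φ x z = φ₁ x
  /-- the boundary values on the outer circle -/
  outer : ∀ (x : X) (z : ℂ), ‖z‖ = b → φ x z = φ₂ x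
  /-- continuity up to the boundary -/
  continuous_boundary : ∀ (x : X) (z : ℂ), ‖z‖ = a ∨ ‖z‖ = b →
    ContinuousWithinAt (fun q : X × ℂ => φ q.1 q.2) (univ ×ˢ closedAnnulus a b) (x, z)
  /-- maximality, i.e. `(π^*ω + i∂∂̄φ)^{n+1} = 0` on `X × A` -/
  maximal : ∀ v : X → ℂ → ℝ, IsOmegaPsh g (univ ×ˢ annulus a b) v →
    (∃ K : Set (X × ℂ), IsCompact K ∧ K ⊆ univ ×ˢ annulus a b ∧
      ∀ q ∈ (univ ×ˢ annulus a b) \ K, v q.1 q.2 ≤ φ q.1 q.2) →
    ∀ q ∈ univ ×ˢ annulus a b, v q.1 q.2 ≤ φ q.1 q.2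

/-- `ω + i∂∂̄u ≥ εω` in the sense of currents on `X`: for every local potential `ρ` of `ω` on `V`
the distribution `∑ ((1 - ε)ρ + u)_{jk̄} w_j conj(w_k)` is nonnegative for every constant vector `w`
(it is tested against the smooth functions `χ ≥ 0` with compact support in `V`). -/
def CurrentGE (g : HermitianMetric n X) (u : X → ℝ) (ε : ℝ) : Prop :=
  ∀ (e : OpenPartialHomeomorph X (Fin n → ℂ)) (V : Set (Fin n → ℂ))
    (ρ : (Fin n → ℂ) → ℝ), IsLocalPotential g e V ρ →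
    ∀ (w : Fin n → ℂ) (χ : (Fin n → ℂ) → ℝ), ContDiff ℝ ∞ χ → HasCompactSupport χ →
      tsupport χ ⊆ V → (∀ p, 0 ≤ χ p) →
        0 ≤ ∫ p in V, ((1 - ε) * ρ p + u (e.symm p)) * (hermForm (leviMatrix χ p) w).re

/-- The closed positive current `ω + i∂∂̄u` on `X` is strictly positive: it is `≥ εω` for some
`ε > 0`. -/
def IsStrictlyPositive (g : HermitianMetric n X) (u : X → ℝ) : Prop :=
  ∃ ε : ℝ, 0 < ε ∧ CurrentGE g u ε

end Pool.Agent.H300R3.WG
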