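import Pool.Agent.H300R3.WG.Pot

set_option autoImplicit false
open scoped Manifold ContDiff Topology ComplexConjugate
open Set Metric InnerProductSpace Filter
open Pool.Agent.NKM

namespace Pool.Agent.H300R3.WG

/-- the holomorphic curves -/
noncomputable def xc (P Q μ γ l : ℝ) (ζ : ℂ) : ℂ :=
  P * Complex.exp (-Complex.I * (μ * (ζ - l) + γ)) + Q * Complex.exp (Complex.I * (μ * (ζ - l) + γ))

lemma xc_re (P Q μ γ l : ℝ) (ζ : ℂ) : (xc P Q μ γ l ζ).re =
    (P * Real.exp (μ * ζ.im) + Q * Real.exp (-(μ * ζ.im))) * Real.cos (μ * (ζ.re - l) + γ) := by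
  unfold xc
  simp only [Complex.add_re, Complex.exp_re, Complex.mul_re, Complex.neg_re,
    Complex.I_re, Complex.neg_im, Complex.I_im, Complex.mul_im, Complex.add_im, Complex.ofReal_re,
    Complex.ofReal_im, Complex.sub_re, Complex.sub_im]
  simp only [neg_zero, zero_mul, neg_mul, one_mul, sub_neg_eq_add, zero_add, add_zero, sub_zero,
    zero_sub, Real.cos_neg]
  ring

lemma xc_im (P Q μ γ l : ℝ) (ζ : ℂ) : (xc P Q μ γ l ζ).im =
    (-(P * Real.exp (μ * ζ.im)) + Q * Real.exp (-(μ * ζ.im))) * Real.sin (μ * (ζ.re - l) + γ) := by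
  unfold xc
  simp only [Complex.add_im, Complex.exp_im, Complex.mul_re, Complex.neg_re,
    Complex.I_re, Complex.neg_im, Complex.I_im, Complex.mul_im, Complex.add_re, Complex.ofReal_re,
    Complex.ofReal_im, Complex.sub_re, Complex.sub_im]
  simp only [neg_zero, zero_mul, neg_mul, one_mul, sub_neg_eq_add, zero_add, add_zero, sub_zero,
    zero_sub, Real.sin_neg]
  ring

lemma analyticAt_xc (P Q μ γ l : ℝ) (ζ : ℂ) : AnalyticAt ℂ (xc P Q μ γ l) ζ := by
  unfold xc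
  apply AnalyticAt.add
  · apply AnalyticAt.mul analyticAt_const
    apply AnalyticAt.cexp
    fun_prop
  · apply AnalyticAt.mul analyticAt_const
    apply AnalyticAt.cexp
    fun_prop

/-- the energy -/
noncomputable def en (P Q μ y : ℝ) : ℝ :=
  P ^ 2 * Real.exp (2 * μ * y) + Q ^ 2 * Real.exp (-(2 * μ * y))

lemma exp_sq (t : ℝ) : Real.exp t ^ 2 = Real.exp (2 * t) := by
  rw [← Real.exp_nat_mul]; norm_num

lemma sq_add_le (P Q μ y : ℝ) :
    (P * Real.exp (μ * y) + Q * Real.exp (-(μ * y))) ^ 2 ≤ 2 * en P Q μ y := by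
  unfold en
  have h1 : Real.exp (2 * μ * y) = Real.exp (μ * y) ^ 2 := by rw [exp_sq]; ring_nf
  have h2 : Real.exp (-(2 * μ * y)) = Real.exp (-(μ * y)) ^ 2 := by rw [exp_sq]; ring_nf
  rw [h1, h2]
  nlinarith [sq_nonneg (P * Real.exp (μ * y) - Q * Real.exp (-(μ * y)))]

lemma sq_sub_le (P Q μ y : ℝ) :
    (-(P * Real.exp (μ * y)) + Q * Real.exp (-(μ * y))) ^ 2 ≤ 2 * en P Q μ y := by
  unfold en
  have h1 : Real.exp (2 * μ * y) = Real.exp (μ * y) ^ 2 := by rw [exp_sq]; ring_nf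
  have h2 : Real.exp (-(2 * μ * y)) = Real.exp (-(μ * y)) ^ 2 := by rw [exp_sq]; ring_nf
  rw [h1, h2]
  nlinarith [sq_nonneg (P * Real.exp (μ * y) + Q * Real.exp (-(μ * y)))]

lemma en_nonneg (P Q μ y : ℝ) : 0 ≤ en P Q μ y := by unfold en; positivity

lemma en_le {P Q μ y Y : ℝ} (hμ : 0 ≤ μ) (hy : |y| ≤ Y) :
    en P Q μ y ≤ (P ^ 2 + Q ^ 2) * Real.exp (2 * μ * Y) := by
  have h := abs_le.1 hy
  have h1 : Real.exp (2 * μ * y) ≤ Real.exp (2 * μ * Y) :=
    Real.exp_le_exp.2 (by nlinarith)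
  have h2 : Real.exp (-(2 * μ * y)) ≤ Real.exp (2 * μ * Y) :=
    Real.exp_le_exp.2 (by nlinarith)
  unfold en
  nlinarith [sq_nonneg P, sq_nonneg Q]

/-- the harmonic majorant -/
noncomputable def hm (A B P Q μ κ τm : ℝ) (ζ : ℂ) : ℝ :=
  (A * (P ^ 2 * Complex.exp (-(2 * μ) * Complex.I * (ζ - τm))
    + Q ^ 2 * Complex.exp ((2 * μ) * Complex.I * (ζ - τm))) + B * Complex.cos (κ * (ζ - τm)) : ℂ).re

lemma hm_eq (A B P Q μ κ τm : ℝ) (ζ : ℂ) : hm A B P Q μ κ τm ζ =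
    A * en P Q μ ζ.im * Real.cos (2 * μ * (ζ.re - τm))
      + B * (Real.cos (κ * (ζ.re - τm)) * Real.cosh (κ * ζ.im)) := by
  unfold hm en
  have hcos : (Complex.cos (κ * (ζ - τm))).re
      = Real.cos (κ * (ζ.re - τm)) * Real.cosh (κ * ζ.im) := by
    have h : (κ : ℂ) * (ζ - τm) = ((κ * (ζ.re - τm) : ℝ) : ℂ) + ((κ * ζ.im : ℝ) : ℂ) * Complex.I := by
      apply Complex.ext <;> simp
    rw [h, Complex.cos_add_mul_I, ← Complex.ofReal_cos, ← Complex.ofReal_cosh,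
      ← Complex.ofReal_sin, ← Complex.ofReal_sinh, ← Complex.ofReal_mul, ← Complex.ofReal_mul,
      Complex.sub_re, Complex.ofReal_re, Complex.re_ofReal_mul, Complex.I_re, mul_zero, sub_zero]
  have hP : (P : ℂ) ^ 2 = ((P ^ 2 : ℝ) : ℂ) := by push_cast; ring
  have hQ : (Q : ℂ) ^ 2 = ((Q ^ 2 : ℝ) : ℂ) := by push_cast; ring
  rw [Complex.add_re, Complex.re_ofReal_mul, Complex.re_ofReal_mul, hcos, Complex.add_re, hP, hQ,
    Complex.re_ofReal_mul, Complex.re_ofReal_mul, Complex.exp_re, Complex.exp_re]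
  simp only [Complex.mul_re, Complex.neg_re, Complex.I_re, Complex.neg_im, Complex.I_im,
    Complex.mul_im, Complex.ofReal_re, Complex.ofReal_im, Complex.sub_re, Complex.sub_im,
    Complex.re_ofNat, Complex.im_ofNat]
  simp only [mul_zero, zero_mul, sub_zero, mul_one, zero_add, add_zero, neg_zero,
    zero_sub, neg_mul, sub_neg_eq_add, Real.cos_neg]
  ring

lemma harmonicAt_hm (A B P Q μ κ τm : ℝ) (ζ : ℂ) : HarmonicAt (hm A B P Q μ κ τm) ζ := by
  unfold hm
  apply AnalyticAt.harmonicAt_re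
  have h1 : AnalyticAt ℂ (fun ζ : ℂ => Complex.exp (-(2 * μ) * Complex.I * (ζ - τm))) ζ := by
    apply AnalyticAt.cexp; fun_prop
  have h2 : AnalyticAt ℂ (fun ζ : ℂ => Complex.exp ((2 * μ) * Complex.I * (ζ - τm))) ζ := by
    apply AnalyticAt.cexp; fun_prop
  have h3 : AnalyticAt ℂ (fun ζ : ℂ => Complex.cos (κ * (ζ - τm))) ζ := by
    apply AnalyticAt.fun_comp (g := Complex.cos)
    · exact Complex.analyticAt_cos
    · fun_prop
  fun_prop

/-- The estimate along the discs. -/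
theorem disc_bound {a b : ℝ} (ha : 0 < a) (hab : a < b) {φ : XT → ℂ → ℝ}
    (hφ : IsOmegaPsh gT (univ ×ˢ annulus a b) φ)
    (husc : UpperSemicontinuousOn (fun q : XT × ℂ => φ q.1 q.2) (univ ×ˢ closedAnnulus a b))
    (hin : ∀ x z, ‖z‖ = a → φ x z = pot1 x) (hout : ∀ x z, ‖z‖ = b → φ x z = pot2 x)
    (hneg : ∀ x, ∀ z ∈ closedAnnulus a b, φ x z ≤ 0)
    {γ : ℝ} (hγ0 : 0 < γ) (hγ1 : γ < Real.pi / 4) (P Q Y : ℝ) (hY : 0 < Y)
    (α : ℝ) (τ₀ : ℝ) (hτ1 : Real.log a < τ₀) (hτ2 : τ₀ < Real.log b)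
    (hen : (P ^ 2 + Q ^ 2) * Real.exp (2 * ((Real.pi / 2 - 2 * γ) / (Real.log b - Real.log a)) * Y)
      ≤ Real.sin γ ^ 2) :
    ‖xc P Q ((Real.pi / 2 - 2 * γ) / (Real.log b - Real.log a)) γ (Real.log a) (τ₀ : ℂ)‖ ^ 2 +
      φ (pi1 (xc P Q ((Real.pi / 2 - 2 * γ) / (Real.log b - Real.log a)) γ (Real.log a) (τ₀ : ℂ)))
        (Complex.exp ((τ₀ : ℂ) + α * Complex.I)) ≤
      3 * Real.sin γ ^ 2 / Real.sin (2 * γ) * (P ^ 2 + Q ^ 2) +
        2 * Real.sin γ / Real.cosh ((Real.pi - 2 * γ) / (Real.log b - Real.log a) * Y) := by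
  set l := Real.log a with hl
  set m := Real.log b with hmdef
  have hlm : l < m := Real.log_lt_log ha hab
  set T := m - l with hT
  have hT0 : 0 < T := by rw [hT]; linarith
  set μ := (Real.pi / 2 - 2 * γ) / T with hμ
  have hμT : μ * T = Real.pi / 2 - 2 * γ := by rw [hμ]; field_simp
  have hμ0 : 0 < μ := by
    rw [hμ]; apply div_pos _ hT0; linarith
  set κ := (Real.pi - 2 * γ) / T with hκ
  have hκT : κ * T = Real.pi - 2 * γ := by rw [hκ]; field_simp
  have hpi := Real.pi_pos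
  have hκ0 : 0 < κ := by
    rw [hκ]; apply div_pos _ hT0; linarith
  set sg := Real.sin γ with hsg
  have hsg0 : 0 < sg := Real.sin_pos_of_pos_of_lt_pi hγ0 (by linarith)
  have hs2 : Real.sin (2 * γ) = 2 * sg * Real.cos γ := Real.sin_two_mul γ
  have hs20 : 0 < Real.sin (2 * γ) := Real.sin_pos_of_pos_of_lt_pi (by linarith) (by linarith)
  have hsgh : sg ^ 2 ≤ 1 / 2 := by
    have h1 : 0 < Real.cos (2 * γ) := Real.cos_pos_of_mem_Ioo ⟨by linarith, by linarith⟩
    have h2 : Real.cos (2 * γ) = 1 - 2 * sg ^ 2 := by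
      rw [Real.cos_two_mul, hsg]
      have := Real.sin_sq_add_cos_sq γ
      linarith
    linarith
  set A := 3 * sg ^ 2 / Real.sin (2 * γ) with hA
  have hA0 : 0 ≤ A := by rw [hA]; positivity
  have hAs : A * Real.sin (2 * γ) = 3 * sg ^ 2 := by rw [hA]; field_simp
  set B := 2 * sg / Real.cosh (κ * Y) with hB
  have hch : 0 < Real.cosh (κ * Y) := Real.cosh_pos _
  have hB0 : 0 ≤ B := by rw [hB]; positivity
  have hBc : B * Real.cosh (κ * Y) = 2 * sg := by rw [hB]; field_simp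
  set τm := (l + m) / 2 with hτm
  -- the rectangle
  set K : Set ℂ := Icc l m ×ℂ Icc (-Y) Y with hK
  have hKc : IsCompact K := isCompact_Icc.reProdIm isCompact_Icc
  have hKi : interior K = Ioo l m ×ℂ Ioo (-Y) Y := by
    rw [hK, Complex.interior_reProdIm, interior_Icc, interior_Icc]
  set zc : ℂ → ℂ := fun ζ => Complex.exp (ζ + α * Complex.I) with hzc
  have hzn : ∀ ζ, ‖zc ζ‖ = Real.exp ζ.re := by
    intro ζ
    rw [hzc]
    simp only [Complex.norm_exp]
    simp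
  have hza : ∀ ζ, AnalyticAt ℂ zc ζ := by
    intro ζ
    rw [hzc]
    apply AnalyticAt.cexp; fun_prop
  have hexl : Real.exp l = a := Real.exp_log ha
  have hexm : Real.exp m = b := Real.exp_log (ha.trans hab)
  have hzcl : ∀ ζ ∈ K, zc ζ ∈ closedAnnulus a b := by
    intro ζ hζ
    have h1 : l ≤ ζ.re := hζ.1.1
    have h2 : ζ.re ≤ m := hζ.1.2
    refine ⟨?_, ?_⟩
    · rw [hzn, ← hexl]; exact Real.exp_le_exp.2 h1
    · rw [hzn, ← hexm]; exact Real.exp_le_exp.2 h2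
  have hzop : ∀ ζ ∈ interior K, zc ζ ∈ annulus a b := by
    intro ζ hζ
    rw [hKi] at hζ
    have h1 : l < ζ.re := hζ.1.1
    have h2 : ζ.re < m := hζ.1.2
    refine ⟨?_, ?_⟩
    · rw [hzn, ← hexl]; exact Real.exp_lt_exp.2 h1
    · rw [hzn, ← hexm]; exact Real.exp_lt_exp.2 h2
  set x : ℂ → ℂ := xc P Q μ γ l with hx
  have hxa : ∀ ζ, AnalyticAt ℂ x ζ := fun ζ => analyticAt_xc P Q μ γ l ζ
  have hAnn : IsOpen (annulus a b) := by
    have h1 : annulus a b = (fun z : ℂ => ‖z‖) ⁻¹' Ioo a b := rfl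
    rw [h1]; exact isOpen_Ioo.preimage continuous_norm
  have hxc : ContinuousOn x K := fun ζ _ => (hxa ζ).continuousAt.continuousWithinAt
  have hu_usc : UpperSemicontinuousOn (fun ζ => ‖x ζ‖ ^ 2 + φ (pi1 (x ζ)) (zc ζ)) K := by
    apply UpperSemicontinuousOn.add
    · apply ContinuousOn.upperSemicontinuousOn
      fun_prop
    · have h1 := husc.comp (g := fun ζ : ℂ => ((pi1 (x ζ), zc ζ) : XT × ℂ)) (t := K) ?_ ?_
      · exact h1
      · apply ContinuousOn.prodMk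
        · exact continuous_pi1.comp_continuousOn hxc
        · exact fun ζ _ => (hza ζ).continuousAt.continuousWithinAt
      · intro ζ hζ
        exact ⟨mem_univ _, hzcl ζ hζ⟩
  have key := max_principle hKc (u := fun ζ => ‖x ζ‖ ^ 2 + φ (pi1 (x ζ)) (zc ζ))
    (H := hm A B P Q μ κ τm) hu_usc
    (fun ζ _ => (harmonicAt_hm A B P Q μ κ τm ζ).1.continuousAt.continuousWithinAt)
    (fun ζ _ => harmonicAt_hm A B P Q μ κ τm ζ)
    (fun ζ hζ => subAt_of_psh hAnn hφ (hxa ζ) (hza ζ) (hzop ζ hζ)) ?_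
  · have hτK : (τ₀ : ℂ) ∈ K := by
      refine ⟨⟨?_, ?_⟩, ⟨?_, ?_⟩⟩
      · simpa using hτ1.le
      · simpa using hτ2.le
      · simpa using hY.le
      · simpa using hY.le
    have h1 := key _ hτK
    rw [hm_eq] at h1
    simp only [Complex.ofReal_im, Complex.ofReal_re, mul_zero, Real.cosh_zero, mul_one] at h1
    have h2 : en P Q μ 0 = P ^ 2 + Q ^ 2 := by unfold en; simp
    rw [h2] at h1
    have h3 : A * (P ^ 2 + Q ^ 2) * Real.cos (2 * μ * (τ₀ - τm)) ≤ A * (P ^ 2 + Q ^ 2) :=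
      mul_le_of_le_one_right (by positivity) (Real.cos_le_one _)
    have h4 : B * Real.cos (κ * (τ₀ - τm)) ≤ B :=
      mul_le_of_le_one_right hB0 (Real.cos_le_one _)
    calc _ ≤ _ := h1
      _ ≤ _ := by linarith
  · intro ζ hζ hni
    have hre1 : l ≤ ζ.re := hζ.1.1
    have hre2 : ζ.re ≤ m := hζ.1.2
    have him1 : -Y ≤ ζ.im := hζ.2.1
    have him2 : ζ.im ≤ Y := hζ.2.2
    have habs : |ζ.im| ≤ Y := abs_le.2 ⟨him1, him2⟩
    set E := en P Q μ ζ.im with hE
    have hE0 : 0 ≤ E := en_nonneg _ _ _ _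
    have hE1 : E ≤ sg ^ 2 := (en_le hμ0.le habs).trans hen
    have hxre := xc_re P Q μ γ l ζ
    have hxim := xc_im P Q μ γ l ζ
    rw [← hx] at hxre hxim
    set θ := μ * (ζ.re - l) + γ with hθ
    have hsq1 : (x ζ).re ^ 2 ≤ 2 * E * Real.cos θ ^ 2 := by
      rw [hxre, mul_pow]
      exact mul_le_mul_of_nonneg_right (sq_add_le _ _ _ _) (sq_nonneg _)
    have hsq2 : (x ζ).im ^ 2 ≤ 2 * E * Real.sin θ ^ 2 := by
      rw [hxim, mul_pow]
      exact mul_le_mul_of_nonneg_right (sq_sub_le _ _ _ _) (sq_nonneg _)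
    have hsc := Real.sin_sq_add_cos_sq θ
    rw [hm_eq, ← hE]
    -- cosines
    have hc1 : 0 ≤ Real.cos (2 * μ * (ζ.re - τm)) := by
      apply Real.cos_nonneg_of_neg_pi_div_two_le_of_le
      · have : -(μ * T) ≤ 2 * μ * (ζ.re - τm) := by rw [hτm, hT]; nlinarith
        rw [hμT] at this; linarith
      · have : 2 * μ * (ζ.re - τm) ≤ μ * T := by rw [hτm, hT]; nlinarith
        rw [hμT] at this; linarith
    have hc2 : sg ≤ Real.cos (κ * (ζ.re - τm)) := by
      have h1 : |κ * (ζ.re - τm)| ≤ Real.pi / 2 - γ := by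
        rw [abs_mul, abs_of_pos hκ0]
        have h2 : |ζ.re - τm| ≤ T / 2 := by
          rw [abs_le]; constructor <;> (rw [hτm, hT]; linarith)
        calc κ * |ζ.re - τm| ≤ κ * (T / 2) := by gcongr
          _ = Real.pi / 2 - γ := by linarith
      rw [← Real.cos_abs (κ * (ζ.re - τm)), hsg, ← Real.cos_pi_div_two_sub]
      exact Real.cos_le_cos_of_nonneg_of_le_pi (abs_nonneg _) (by linarith) h1
    have hch1 : 1 ≤ Real.cosh (κ * ζ.im) := Real.one_le_cosh _
    have hBterm : 0 ≤ B * (Real.cos (κ * (ζ.re - τm)) * Real.cosh (κ * ζ.im)) := by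
      have : 0 ≤ Real.cos (κ * (ζ.re - τm)) := hsg0.le.trans hc2
      positivity
    have hkfb : ∀ s : ℝ, s ^ 2 ≤ 2 * E → kf s ≤ E * sg ^ 2 := by
      intro s hs
      have h1 : |s| ≤ 1 := by
        rw [← sq_le_one_iff_abs_le_one]; linarith
      have h2 := kf_le h1
      have h3 : s ^ 4 = (s ^ 2) ^ 2 := by ring
      have h4 : (s ^ 2) ^ 2 ≤ (2 * E) ^ 2 := pow_le_pow_left₀ (sq_nonneg _) hs 2
      nlinarith
    have hbd : ζ.re = l ∨ ζ.re = m ∨ |ζ.im| = Y := by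
      by_contra hcon
      push Not at hcon
      apply hni
      rw [hKi]
      refine ⟨⟨lt_of_le_of_ne hre1 (Ne.symm hcon.1), lt_of_le_of_ne hre2 hcon.2.1⟩, ?_⟩
      have : |ζ.im| < Y := lt_of_le_of_ne habs hcon.2.2
      exact abs_lt.1 this
    rcases hbd with h | h | h
    · -- left side
      have hθ1 : θ = γ := by rw [hθ, h]; ring
      have hφv : φ (pi1 (x ζ)) (zc ζ) = pot1 (pi1 (x ζ)) := by
        apply hin; rw [hzn, h, hexl]
      rw [hφv, pot1_pi, norm_sq_re_im]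
      have h1 := hkfb (x ζ).re (hsq1.trans
        (mul_le_of_le_one_right (by positivity) (Real.cos_sq_le_one θ)))
      rw [hθ1] at hsq2
      have h2 : 2 * μ * (ζ.re - τm) = -(Real.pi / 2 - 2 * γ) := by
        rw [h, ← hμT, hτm, hT]; ring
      rw [h2, Real.cos_neg, Real.cos_pi_div_two_sub]
      unfold kf at h1
      have h3 : A * E * Real.sin (2 * γ) = 3 * sg ^ 2 * E := by rw [← hAs]; ring
      rw [h3]
      linarith
    · -- right side
      have hθ1 : θ = Real.pi / 2 - γ := by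
        rw [hθ, h]
        have : μ * (m - l) = Real.pi / 2 - 2 * γ := hμT
        linarith
      have hφv : φ (pi1 (x ζ)) (zc ζ) = pot2 (pi1 (x ζ)) := by
        apply hout; rw [hzn, h, hexm]
      rw [hφv, pot2_pi, norm_sq_re_im]
      have h1 := hkfb (x ζ).im (hsq2.trans
        (mul_le_of_le_one_right (by positivity) (Real.sin_sq_le_one θ)))
      rw [hθ1, Real.cos_pi_div_two_sub] at hsq1
      have h2 : 2 * μ * (ζ.re - τm) = Real.pi / 2 - 2 * γ := by
        rw [h, ← hμT, hτm, hT]; ring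
      rw [h2, Real.cos_pi_div_two_sub]
      unfold kf at h1
      have h3 : A * E * Real.sin (2 * γ) = 3 * sg ^ 2 * E := by rw [← hAs]; ring
      rw [h3]
      linarith
    · -- the ends
      have h1 : ‖x ζ‖ ^ 2 ≤ 2 * E := by
        rw [norm_sq_re_im]
        calc (x ζ).re ^ 2 + (x ζ).im ^ 2
            ≤ 2 * E * Real.cos θ ^ 2 + 2 * E * Real.sin θ ^ 2 := add_le_add hsq1 hsq2
          _ = 2 * E * (Real.sin θ ^ 2 + Real.cos θ ^ 2) := by ring
          _ = 2 * E := by rw [hsc, mul_one]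
      have h2 := hneg (pi1 (x ζ)) (zc ζ) (hzcl ζ hζ)
      have h3 : Real.cosh (κ * ζ.im) = Real.cosh (κ * Y) := by
        rw [← Real.cosh_abs (κ * ζ.im), abs_mul, abs_of_pos hκ0, h]
      rw [h3]
      have h4 : 2 * sg ^ 2 ≤ B * (Real.cos (κ * (ζ.re - τm)) * Real.cosh (κ * Y)) := by
        have : B * (Real.cos (κ * (ζ.re - τm)) * Real.cosh (κ * Y))
            = (B * Real.cosh (κ * Y)) * Real.cos (κ * (ζ.re - τm)) := by ring
        rw [this, hBc]
        have h6 : sg * sg ≤ sg * Real.cos (κ * (ζ.re - τm)) :=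
          mul_le_mul_of_nonneg_left hc2 hsg0.le
        linarith [sq sg]
      have h5 : 0 ≤ A * E * Real.cos (2 * μ * (ζ.re - τm)) := by positivity
      linarith

end Pool.Agent.H300R3.WG
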