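import Pool.Agent.H300R3.WG.Main1

set_option autoImplicit false
open scoped Manifold ContDiff Topology ComplexConjugate
open Set Metric InnerProductSpace Filter
open Pool.Agent.NKM

namespace Pool.Agent.H300R3.WG

/-- normalised logarithmic time -/
noncomputable def tt (a b : ℝ) (z : ℂ) : ℝ :=
  (Real.log ‖z‖ - Real.log a) / (Real.log b - Real.log a)

/-- linear interpolation of the boundary data -/
noncomputable def up (a b : ℝ) (x : XT) (z : ℂ) : ℝ :=
  (1 - tt a b z) * pot1 x + tt a b z * pot2 x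

noncomputable def low1 (a b : ℝ) (x : XT) (z : ℂ) : ℝ := pot1 x - 4 * tt a b z
noncomputable def low2 (a b : ℝ) (x : XT) (z : ℂ) : ℝ := pot2 x - 4 * (1 - tt a b z)

/-- the competitors -/
structure Comp (a b : ℝ) (v : XT → ℂ → ℝ) : Prop where
  psh : IsOmegaPsh gT (univ ×ˢ annulus a b) v
  bd : ∀ ε : ℝ, 0 < ε → ∃ δ : ℝ, 0 < δ ∧ ∀ x : XT, ∀ z ∈ annulus a b,
    (‖z‖ < a + δ ∨ b - δ < ‖z‖) → v x z ≤ up a b x z + ε

/-- the envelope -/
noncomputable def env (a b : ℝ) (x : XT) (z : ℂ) : ℝ :=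
  open Classical in
  if z ∈ annulus a b then sSup {t : ℝ | ∃ v, Comp a b v ∧ v x z = t} else up a b x z

section

variable {a b : ℝ} (ha : 0 < a) (hab : a < b)
include ha hab

lemma T_pos : 0 < Real.log b - Real.log a := by
  have := Real.log_lt_log ha hab
  linarith

lemma tt_mem {z : ℂ} (hz : z ∈ closedAnnulus a b) : 0 ≤ tt a b z ∧ tt a b z ≤ 1 := by
  have hT := T_pos ha hab
  have hz0 : 0 < ‖z‖ := ha.trans_le hz.1
  have h1 : Real.log a ≤ Real.log ‖z‖ := Real.log_le_log ha hz.1
  have h2 : Real.log ‖z‖ ≤ Real.log b := Real.log_le_log hz0 hz.2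
  unfold tt
  constructor
  · apply div_nonneg _ hT.le; linarith
  · rw [div_le_one hT]; linarith

lemma tt_inner {z : ℂ} (hz : ‖z‖ = a) : tt a b z = 0 := by
  unfold tt; rw [hz]; simp

lemma tt_outer {z : ℂ} (hz : ‖z‖ = b) : tt a b z = 1 := by
  have hT := T_pos ha hab
  unfold tt; rw [hz, div_self hT.ne']

lemma continuousOn_tt : ContinuousOn (tt a b) (closedAnnulus a b) := by
  intro z hz
  have hz0 : ‖z‖ ≠ 0 := (ha.trans_le hz.1).ne'
  unfold tt
  have h1 : ContinuousAt (fun z : ℂ => Real.log ‖z‖) z :=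
    ContinuousAt.log continuous_norm.continuousAt hz0
  exact ((h1.sub continuousAt_const).div_const _).continuousWithinAt

lemma up_bounds {x : XT} {z : ℂ} (hz : z ∈ closedAnnulus a b) :
    -4 ≤ up a b x z ∧ up a b x z ≤ 0 := by
  obtain ⟨h1, h2⟩ := tt_mem ha hab hz
  have e1 := pot1_nonpos x
  have e2 := pot2_nonpos x
  have e3 := pot1_ge x
  have e4 := pot2_ge x
  unfold up
  constructor <;> nlinarith

lemma low1_le_up {x : XT} {z : ℂ} (hz : z ∈ closedAnnulus a b) : low1 a b x z ≤ up a b x z := by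
  obtain ⟨h1, h2⟩ := tt_mem ha hab hz
  have e1 := pot1_nonpos x
  have e4 := pot2_ge x
  unfold up low1
  nlinarith

lemma low2_le_up {x : XT} {z : ℂ} (hz : z ∈ closedAnnulus a b) : low2 a b x z ≤ up a b x z := by
  obtain ⟨h1, h2⟩ := tt_mem ha hab hz
  have e1 := pot2_nonpos x
  have e4 := pot1_ge x
  unfold up low2
  nlinarith

lemma continuousOn_tt' : ContinuousOn (fun q : XT × ℂ => tt a b q.2) (univ ×ˢ closedAnnulus a b) :=
  (continuousOn_tt ha hab).comp continuous_snd.continuousOn fun _ hq => hq.2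

lemma continuousOn_up : ContinuousOn (fun q : XT × ℂ => up a b q.1 q.2)
    (univ ×ˢ closedAnnulus a b) := by
  have h1 : Continuous fun q : XT × ℂ => pot1 q.1 := continuous_pot1.comp continuous_fst
  have h2 : Continuous fun q : XT × ℂ => pot2 q.1 := continuous_pot2.comp continuous_fst
  have h3 := continuousOn_tt' ha hab
  exact ((continuousOn_const.sub h3).mul h1.continuousOn).add (h3.mul h2.continuousOn)

lemma continuousOn_low1 : ContinuousOn (fun q : XT × ℂ => low1 a b q.1 q.2)
    (univ ×ˢ closedAnnulus a b) := by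
  have h1 : Continuous fun q : XT × ℂ => pot1 q.1 := continuous_pot1.comp continuous_fst
  exact h1.continuousOn.sub (continuousOn_const.mul (continuousOn_tt' ha hab))

lemma continuousOn_low2 : ContinuousOn (fun q : XT × ℂ => low2 a b q.1 q.2)
    (univ ×ˢ closedAnnulus a b) := by
  have h1 : Continuous fun q : XT × ℂ => pot2 q.1 := continuous_pot2.comp continuous_fst
  exact h1.continuousOn.sub
    (continuousOn_const.mul (continuousOn_const.sub (continuousOn_tt' ha hab)))

lemma harmonicAt_tt {z : ℂ → ℂ} {c : ℂ} (hz : AnalyticAt ℂ z c) (hc : z c ∈ annulus a b)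
    (α β : ℝ) : HarmonicAt (fun ζ => α + β * tt a b (z ζ)) c := by
  have h0 : z c ≠ 0 := by
    intro h
    have h1 : a < ‖z c‖ := hc.1
    rw [h, norm_zero] at h1
    linarith
  have h1 : HarmonicAt (fun ζ => Real.log ‖z ζ‖) c := hz.harmonicAt_log_norm h0
  have hT := T_pos ha hab
  have h2 := (h1.const_smul (c := β / (Real.log b - Real.log a))).add
    (harmonicAt_const (E := ℂ) (x := c) (α - β * Real.log a / (Real.log b - Real.log a)))
  refine (harmonicAt_congr_nhds (Eventually.of_forall fun ζ => ?_)).1 h2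
  simp only [Pi.add_apply, Pi.smul_apply, smul_eq_mul, tt]
  field_simp
  ring

lemma comp_low1 : Comp a b (low1 a b) := by
  refine ⟨psh_of_subAt ?_ ?_, ?_⟩
  · exact ((continuousOn_low1 ha hab).mono
      (prod_mono subset_rfl (annulus_subset a b))).upperSemicontinuousOn
  · intro x z c hx hz hc
    refine (subAt_convex hasDerivAt_kf mono_kf' hasDerivAt_sq' mono_sq' hx
      (harmonicAt_tt ha hab hz hc 0 (-4))).congr (Eventually.of_forall fun ζ => ?_)
    simp only [low1, pot1_pi, norm_sq_re_im, kf]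
    ring
  · intro ε hε
    refine ⟨1, one_pos, fun x z hz _ => ?_⟩
    have := low1_le_up ha hab (x := x) (annulus_subset a b hz)
    linarith

lemma comp_low2 : Comp a b (low2 a b) := by
  refine ⟨psh_of_subAt ?_ ?_, ?_⟩
  · exact ((continuousOn_low2 ha hab).mono
      (prod_mono subset_rfl (annulus_subset a b))).upperSemicontinuousOn
  · intro x z c hx hz hc
    refine (subAt_convex hasDerivAt_sq' mono_sq' hasDerivAt_kf mono_kf' hx
      (harmonicAt_tt ha hab hz hc (-4) 4)).congr (Eventually.of_forall fun ζ => ?_)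
    simp only [low2, pot2_pi, norm_sq_re_im, kf]
    ring
  · intro ε hε
    refine ⟨1, one_pos, fun x z hz _ => ?_⟩
    have := low2_le_up ha hab (x := x) (annulus_subset a b hz)
    linarith

/-- competitors lie below the linear interpolation -/
lemma comp_le_up {v : XT → ℂ → ℝ} (hv : Comp a b v) (x : XT) {z : ℂ} (hz : z ∈ annulus a b) :
    v x z ≤ up a b x z := by
  apply le_of_forall_pos_le_add
  intro ε hε
  obtain ⟨δ, hδ, hbd⟩ := hv.bd ε hε
  set r₁ := min ((a + ‖z‖) / 2) (a + δ / 2) with hr₁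
  set r₂ := max ((b + ‖z‖) / 2) (b - δ / 2) with hr₂
  have hz1 : a < ‖z‖ := hz.1
  have hz2 : ‖z‖ < b := hz.2
  have e1 : a < r₁ := by rw [hr₁, lt_min_iff]; constructor <;> linarith
  have e2 : r₁ < ‖z‖ := (min_le_left _ _).trans_lt (by linarith)
  have e3 : r₁ < a + δ := (min_le_right _ _).trans_lt (by linarith)
  have e4 : r₂ < b := by rw [hr₂, max_lt_iff]; constructor <;> linarith
  have e5 : ‖z‖ < r₂ := lt_of_lt_of_le (by linarith) (le_max_left _ _)
  have e6 : b - δ < r₂ := lt_of_lt_of_le (by linarith) (le_max_right _ _)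
  have hsub : closedAnnulus r₁ r₂ ⊆ annulus a b := fun w hw =>
    ⟨e1.trans_le hw.1, hw.2.trans_lt e4⟩
  refine max_principle' (isCompact_closedAnnulus r₁ r₂) (isOpen_annulus r₁ r₂)
    (annulus_subset r₁ r₂) (u := fun w => v x w) (H := fun w => up a b x w + ε)
    (usc_slice (v := v) ((hv.psh.usc).mono (prod_mono subset_rfl hsub)) x) ?_ ?_ ?_ ?_ z
    ⟨e2.le, e5.le⟩
  · have h1 : ContinuousOn (fun w : ℂ => up a b x w) (closedAnnulus r₁ r₂) :=
      (continuousOn_up ha hab).comp (f := fun w : ℂ => ((x, w) : XT × ℂ))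
        (Continuous.continuousOn (by fun_prop))
        (fun w hw => ⟨mem_univ _, annulus_subset a b (hsub hw)⟩)
    exact h1.add continuousOn_const
  · intro w hw
    have h1 := harmonicAt_tt ha hab (z := fun ζ => ζ) (c := w) analyticAt_id
      (hsub (annulus_subset r₁ r₂ hw)) (pot1 x + ε) (pot2 x - pot1 x)
    refine (harmonicAt_congr_nhds (Eventually.of_forall fun ζ => ?_)).1 h1
    simp only [up]; ring
  · intro w hw
    exact subAt_time (isOpen_annulus a b) hv.psh x (hsub (annulus_subset r₁ r₂ hw))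
  · intro w hw hn
    have hwab := hsub hw
    rcases boundary_cases hw hn with h1 | h1
    · exact hbd x w hwab (Or.inl (by rw [h1]; exact e3))
    · exact hbd x w hwab (Or.inr (by rw [h1]; exact e6))

lemma env_bdd (x : XT) {z : ℂ} (hz : z ∈ annulus a b) :
    BddAbove {t : ℝ | ∃ v, Comp a b v ∧ v x z = t} := by
  refine ⟨up a b x z, ?_⟩
  rintro t ⟨v, hv, rfl⟩
  exact comp_le_up ha hab hv x hz

lemma le_env {v : XT → ℂ → ℝ} (hv : Comp a b v) (x : XT) {z : ℂ} (hz : z ∈ annulus a b) :
    v x z ≤ env a b x z := by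
  rw [env, if_pos hz]
  exact le_csSup (env_bdd ha hab x hz) ⟨v, hv, rfl⟩

lemma env_le {x : XT} {z : ℂ} (hz : z ∈ annulus a b) {t : ℝ}
    (h : ∀ v, Comp a b v → v x z ≤ t) : env a b x z ≤ t := by
  rw [env, if_pos hz]
  refine csSup_le (⟨low1 a b x z, low1 a b, comp_low1 ha hab, rfl⟩ :
    Set.Nonempty {t : ℝ | ∃ v, Comp a b v ∧ v x z = t}) ?_
  rintro s ⟨v, hv, rfl⟩
  exact h v hv

lemma env_le_up {x : XT} {z : ℂ} (hz : z ∈ closedAnnulus a b) : env a b x z ≤ up a b x z := by
  by_cases h : z ∈ annulus a b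
  · exact env_le ha hab h fun v hv => comp_le_up ha hab hv x h
  · rw [env, if_neg h]

lemma low1_le_env {x : XT} {z : ℂ} (hz : z ∈ closedAnnulus a b) :
    low1 a b x z ≤ env a b x z := by
  by_cases h : z ∈ annulus a b
  · exact le_env ha hab (comp_low1 ha hab) x h
  · rw [env, if_neg h]; exact low1_le_up ha hab hz

lemma low2_le_env {x : XT} {z : ℂ} (hz : z ∈ closedAnnulus a b) :
    low2 a b x z ≤ env a b x z := by
  by_cases h : z ∈ annulus a b
  · exact le_env ha hab (comp_low2 ha hab) x h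
  · rw [env, if_neg h]; exact low2_le_up ha hab hz

end

end Pool.Agent.H300R3.WG
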