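import Pool.Agent.H300R3.WG.Env

set_option autoImplicit false
open scoped Manifold ContDiff Topology ComplexConjugate
open Set Metric InnerProductSpace Filter
open Pool.Agent.NKM

namespace Pool.Agent.H300R3.WG

lemma isOpenMap_pi1 : IsOpenMap pi1 := by
  have h1 : IsOpenMap pr := pr_cov.isCoveringMap.isLocalHomeomorph.isOpenMap
  have h2 : IsOpenMap c1 := (Homeomorph.funUnique (Fin 1) ℂ).symm.isOpenMap
  exact h1.comp h2

/-- the regularised envelope -/
noncomputable def reg (a b : ℝ) (x : XT) (z : ℂ) : ℝ :=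
  sInf {t : ℝ | ∀ᶠ q : XT × ℂ in 𝓝 (x, z), env a b q.1 q.2 ≤ t}

section

variable {a b : ℝ} (ha : 0 < a) (hab : a < b)
include ha hab

lemma reg_ne {x : XT} {z : ℂ} (hz : z ∈ annulus a b) :
    {t : ℝ | ∀ᶠ q : XT × ℂ in 𝓝 (x, z), env a b q.1 q.2 ≤ t}.Nonempty := by
  refine ⟨0, ?_⟩
  have h1 : ∀ᶠ q : XT × ℂ in 𝓝 (x, z), q.2 ∈ annulus a b :=
    continuous_snd.continuousAt.eventually ((isOpen_annulus a b).mem_nhds hz)
  filter_upwards [h1] with q hq
  exact (env_le_up ha hab (annulus_subset a b hq)).trans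
    (up_bounds ha hab (annulus_subset a b hq)).2

omit ha hab in
lemma reg_bdd {x : XT} {z : ℂ} :
    BddBelow {t : ℝ | ∀ᶠ q : XT × ℂ in 𝓝 (x, z), env a b q.1 q.2 ≤ t} :=
  ⟨env a b x z, fun t ht => by
    have h1 : ∀ᶠ q : XT × ℂ in 𝓝 (x, z), env a b q.1 q.2 ≤ t := ht
    exact h1.self_of_nhds⟩

lemma env_le_reg {x : XT} {z : ℂ} (hz : z ∈ annulus a b) : env a b x z ≤ reg a b x z :=
  le_csInf (reg_ne ha hab hz) fun t ht => by
    have h1 : ∀ᶠ q : XT × ℂ in 𝓝 (x, z), env a b q.1 q.2 ≤ t := ht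
    exact h1.self_of_nhds

lemma reg_lt {x : XT} {z : ℂ} (hz : z ∈ annulus a b) {t : ℝ} (h : reg a b x z < t) :
    ∃ t' < t, ∀ᶠ q : XT × ℂ in 𝓝 (x, z), env a b q.1 q.2 ≤ t' := by
  obtain ⟨t', ht', hlt⟩ := exists_lt_of_csInf_lt (reg_ne ha hab hz) h
  exact ⟨t', hlt, ht'⟩

omit ha hab in
lemma reg_le {x : XT} {z : ℂ} {t : ℝ}
    (h : ∀ᶠ q : XT × ℂ in 𝓝 (x, z), env a b q.1 q.2 ≤ t) : reg a b x z ≤ t :=
  csInf_le reg_bdd h

lemma usc_reg : UpperSemicontinuousOn (fun q : XT × ℂ => reg a b q.1 q.2)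
    (univ ×ˢ annulus a b) := by
  rintro ⟨x, z⟩ ⟨_, hz⟩ y hy
  obtain ⟨t', ht', hev⟩ := reg_lt ha hab hz hy
  apply nhdsWithin_le_nhds
  filter_upwards [eventually_eventually_nhds.2 hev] with q hq
  exact (reg_le hq).trans_lt ht'

lemma psh_reg : IsOmegaPsh gT (univ ×ˢ annulus a b) (reg a b) := by
  refine psh_of_subAt (usc_reg ha hab) ?_
  intro x z c hx hz hc
  have hzc : ∀ᶠ ζ in 𝓝 c, z ζ ∈ annulus a b :=
    hz.continuousAt.eventually ((isOpen_annulus a b).mem_nhds hc)
  obtain ⟨s, hs, hsb⟩ := Metric.eventually_nhds_iff_ball.1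
    ((hx.eventually_analyticAt.and hz.eventually_analyticAt).and hzc)
  filter_upwards [Ioo_mem_nhdsGT hs] with r hr H hH hb
  have hr0 : 0 < r := hr.1
  have hsub : closedBall c r ⊆ ball c s := closedBall_subset_ball hr.2
  have hxa : ∀ ζ ∈ closedBall c r, AnalyticAt ℂ x ζ := fun ζ hζ => (hsb ζ (hsub hζ)).1.1
  have hza : ∀ ζ ∈ closedBall c r, AnalyticAt ℂ z ζ := fun ζ hζ => (hsb ζ (hsub hζ)).1.2
  have hzm : ∀ ζ ∈ closedBall c r, z ζ ∈ annulus a b := fun ζ hζ => (hsb ζ (hsub hζ)).2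
  apply le_of_forall_pos_le_add
  intro ε' hε'
  set ε := ε' / 2 with hε
  have hε0 : 0 < ε := by positivity
  -- step A
  have hA : ∀ᶠ p : ℂ × ℂ in 𝓝 (0, 0), ∀ ζ ∈ closedBall c r, z ζ + p.2 ∈ annulus a b := by
    apply (isCompact_closedBall c r).eventually_forall_of_forall_eventually
    intro ζ hζ
    have h1 : ContinuousAt (fun q : (ℂ × ℂ) × ℂ => z q.2 + q.1.2) ((0, 0), ζ) := by
      have h2 : ContinuousAt (fun q : (ℂ × ℂ) × ℂ => z q.2) ((0, 0), ζ) :=
        ContinuousAt.comp (f := fun q : (ℂ × ℂ) × ℂ => q.2) (hza ζ hζ).continuousAt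
          continuous_snd.continuousAt
      exact h2.add (continuous_snd.comp continuous_fst).continuousAt
    apply h1.eventually
    apply (isOpen_annulus a b).mem_nhds
    simpa using hzm ζ hζ
  -- step B
  have hB : ∀ᶠ p : ℂ × ℂ in 𝓝 (0, 0), ∀ ζ ∈ sphere c r,
      ‖x ζ + p.1‖ ^ 2 + env a b (pi1 (x ζ + p.1)) (z ζ + p.2) ≤ H ζ + ε := by
    apply (isCompact_sphere c r).eventually_forall_of_forall_eventually
    intro ζ hζ
    have hζ' := sphere_subset_closedBall hζ
    have h0 : reg a b (pi1 (x ζ)) (z ζ) < H ζ + ε - ‖x ζ‖ ^ 2 := by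
      have := hb ζ hζ
      linarith
    obtain ⟨t', ht', hev⟩ := reg_lt ha hab (hzm ζ hζ') h0
    have cx : ContinuousAt (fun q : (ℂ × ℂ) × ℂ => x q.2 + q.1.1) ((0, 0), ζ) := by
      have h2 : ContinuousAt (fun q : (ℂ × ℂ) × ℂ => x q.2) ((0, 0), ζ) :=
        ContinuousAt.comp (f := fun q : (ℂ × ℂ) × ℂ => q.2) (hxa ζ hζ').continuousAt
          continuous_snd.continuousAt
      exact h2.add (continuous_fst.comp continuous_fst).continuousAt
    have cz : ContinuousAt (fun q : (ℂ × ℂ) × ℂ => z q.2 + q.1.2) ((0, 0), ζ) := by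
      have h2 : ContinuousAt (fun q : (ℂ × ℂ) × ℂ => z q.2) ((0, 0), ζ) :=
        ContinuousAt.comp (f := fun q : (ℂ × ℂ) × ℂ => q.2) (hza ζ hζ').continuousAt
          continuous_snd.continuousAt
      exact h2.add (continuous_snd.comp continuous_fst).continuousAt
    have cH : ContinuousAt (fun q : (ℂ × ℂ) × ℂ => H q.2) ((0, 0), ζ) :=
      ContinuousAt.comp (f := fun q : (ℂ × ℂ) × ℂ => q.2) (hH ζ hζ').1.continuousAt
        continuous_snd.continuousAt
    have cp : ContinuousAt (fun q : (ℂ × ℂ) × ℂ => (pi1 (x q.2 + q.1.1), z q.2 + q.1.2))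
        ((0, 0), ζ) := (continuous_pi1.continuousAt.comp cx).prodMk cz
    have e1 : ∀ᶠ q : (ℂ × ℂ) × ℂ in 𝓝 ((0, 0), ζ),
        env a b (pi1 (x q.2 + q.1.1)) (z q.2 + q.1.2) ≤ t' := by
      have : (pi1 (x ζ), z ζ) = (pi1 (x ζ + 0), z ζ + 0) := by simp
      rw [this] at hev
      exact cp.eventually hev
    have e2 : ∀ᶠ q : (ℂ × ℂ) × ℂ in 𝓝 ((0, 0), ζ),
        t' < H q.2 + ε - ‖x q.2 + q.1.1‖ ^ 2 := by
      have c2 : ContinuousAt (fun q : (ℂ × ℂ) × ℂ => H q.2 + ε - ‖x q.2 + q.1.1‖ ^ 2)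
          ((0, 0), ζ) := (cH.add continuousAt_const).sub (cx.norm.pow 2)
      apply c2.eventually (lt_mem_nhds ?_)
      simpa using ht'
    filter_upwards [e1, e2] with q h1 h2
    linarith
  -- step C
  have hC : ∀ᶠ p : ℂ × ℂ in 𝓝 (0, 0),
      env a b (pi1 (x c + p.1)) (z c + p.2) ≤ H c + ε - ‖x c + p.1‖ ^ 2 := by
    filter_upwards [hA, hB] with p hpA hpB
    have hcm : c ∈ closedBall c r := mem_closedBall_self hr0.le
    apply env_le ha hab (hpA c hcm)
    intro v hv
    have key : (fun ζ => ‖x ζ + p.1‖ ^ 2 + v (pi1 (x ζ + p.1)) (z ζ + p.2)) c ≤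
        (fun ζ => H ζ + ε) c := by
      refine sub_of_subAt (u := fun ζ => ‖x ζ + p.1‖ ^ 2 + v (pi1 (x ζ + p.1)) (z ζ + p.2))
        (H := fun ζ => H ζ + ε) hr0 ?_ ?_ ?_ ?_
      · have c1 : ContinuousOn (fun ζ => x ζ + p.1) (closedBall c r) := fun ζ hζ =>
          ((hxa ζ hζ).continuousAt.add continuousAt_const).continuousWithinAt
        have c2 : ContinuousOn (fun ζ => z ζ + p.2) (closedBall c r) := fun ζ hζ =>
          ((hza ζ hζ).continuousAt.add continuousAt_const).continuousWithinAt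
        have h1 : UpperSemicontinuousOn (fun ζ => ‖x ζ + p.1‖ ^ 2) (closedBall c r) :=
          (c1.norm.pow 2).upperSemicontinuousOn
        have h2 : UpperSemicontinuousOn (fun ζ => v (pi1 (x ζ + p.1)) (z ζ + p.2))
            (closedBall c r) :=
          hv.psh.usc.comp (g := fun ζ => ((pi1 (x ζ + p.1), z ζ + p.2) : XT × ℂ))
            (t := closedBall c r) ((continuous_pi1.comp_continuousOn c1).prodMk c2)
            (fun ζ hζ => ⟨mem_univ _, hpA ζ hζ⟩)
        exact h1.add h2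
      · intro ζ hζ
        have hζ' := ball_subset_closedBall hζ
        exact subAt_of_psh (isOpen_annulus a b) hv.psh (x := fun ζ => x ζ + p.1)
          (z := fun ζ => z ζ + p.2) ((hxa ζ hζ').add analyticAt_const)
          ((hza ζ hζ').add analyticAt_const) (hpA ζ hζ')
      · exact hH.add fun ζ _ => harmonicAt_const _
      · intro ζ hζ
        have h1 := hpB ζ hζ
        have h2 := le_env ha hab hv (pi1 (x ζ + p.1)) (hpA ζ (sphere_subset_closedBall hζ))
        show _ ≤ H ζ + ε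
        linarith
    have key' : ‖x c + p.1‖ ^ 2 + v (pi1 (x c + p.1)) (z c + p.2) ≤ H c + ε := key
    linarith
  -- step D
  have hD : ∀ᶠ p : ℂ × ℂ in 𝓝 (0, 0), ‖x c‖ ^ 2 - ε < ‖x c + p.1‖ ^ 2 := by
    have c2 : ContinuousAt (fun p : ℂ × ℂ => ‖x c + p.1‖ ^ 2) (0, 0) :=
      Continuous.continuousAt (by fun_prop)
    apply c2.eventually (lt_mem_nhds ?_)
    simp only [add_zero]
    linarith
  have hE : ∀ᶠ p : ℂ × ℂ in 𝓝 (0, 0),
      env a b (pi1 (x c + p.1)) (z c + p.2) ≤ H c + ε' - ‖x c‖ ^ 2 := by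
    filter_upwards [hC, hD] with p h1 h2
    linarith
  have hF : IsOpenMap (fun p : ℂ × ℂ => ((pi1 (x c + p.1), z c + p.2) : XT × ℂ)) := by
    have h1 : IsOpenMap (fun p : ℂ => pi1 (x c + p)) :=
      isOpenMap_pi1.comp (Homeomorph.addLeft (x c)).isOpenMap
    have h2 : IsOpenMap (fun p : ℂ => z c + p) := (Homeomorph.addLeft (z c)).isOpenMap
    exact h1.prodMap h2
  have hG : ∀ᶠ q : XT × ℂ in 𝓝 (pi1 (x c), z c), env a b q.1 q.2 ≤ H c + ε' - ‖x c‖ ^ 2 := by
    have h1 := hF.nhds_le (0, 0)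
    simp only [add_zero] at h1
    exact h1 (eventually_map.2 hE)
  have := reg_le hG
  linarith

lemma reg_le_up {x : XT} {z : ℂ} (hz : z ∈ annulus a b) : reg a b x z ≤ up a b x z := by
  apply le_of_forall_pos_lt_add
  intro ε hε
  have h1 : ContinuousAt (fun q : XT × ℂ => up a b q.1 q.2) (x, z) :=
    ((continuousOn_up ha hab).mono (prod_mono subset_rfl (annulus_subset a b))).continuousAt
      ((isOpen_univ.prod (isOpen_annulus a b)).mem_nhds ⟨mem_univ _, hz⟩)
  have h2 : ∀ᶠ q : XT × ℂ in 𝓝 (x, z), up a b q.1 q.2 < up a b x z + ε / 2 :=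
    h1.eventually (gt_mem_nhds (by simp only; linarith))
  have h3 : ∀ᶠ q : XT × ℂ in 𝓝 (x, z), q.2 ∈ annulus a b :=
    continuous_snd.continuousAt.eventually ((isOpen_annulus a b).mem_nhds hz)
  have h4 : reg a b x z ≤ up a b x z + ε / 2 := by
    apply reg_le
    filter_upwards [h2, h3] with q h5 h6
    exact (env_le_up ha hab (annulus_subset a b h6)).trans h5.le
  linarith

lemma comp_reg : Comp a b (reg a b) := by
  refine ⟨psh_reg ha hab, fun ε hε => ⟨1, one_pos, fun x z hz _ => ?_⟩⟩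
  have := reg_le_up ha hab (x := x) hz
  linarith

lemma env_eq_reg {x : XT} {z : ℂ} (hz : z ∈ annulus a b) : env a b x z = reg a b x z :=
  le_antisymm (env_le_reg ha hab hz) (le_env ha hab (comp_reg ha hab) x hz)

lemma psh_env : IsOmegaPsh gT (univ ×ˢ annulus a b) (env a b) := by
  have h := psh_reg ha hab
  refine ⟨?_, ?_⟩
  · intro q hq y hy
    have h1 : reg a b q.1 q.2 < y := by
      rw [← env_eq_reg ha hab hq.2]; exact hy
    filter_upwards [h.usc q hq y h1, self_mem_nhdsWithin] with q' h2 h3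
    show env a b q'.1 q'.2 < y
    rw [env_eq_reg ha hab h3.2]; exact h2
  · intro e V ρ hρ c r f z H hr hf hz hH hmem hb
    have h1 := h.sub e V ρ hρ c r f z H hr hf hz hH hmem ?_
    · rw [env_eq_reg ha hab (hmem c (mem_closedBall_self hr.le)).2.2]; exact h1
    · intro ζ hζ
      rw [← env_eq_reg ha hab (hmem ζ (sphere_subset_closedBall hζ)).2.2]
      exact hb ζ hζ

/-- existence of the weak geodesic -/
theorem env_isWeakGeodesic : IsWeakGeodesic gT pot1 pot2 a b (env a b) := by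
  have hinner : ∀ (x : XT) (z : ℂ), ‖z‖ = a → env a b x z = pot1 x := by
    intro x z hz
    have hn : z ∉ annulus a b := fun h => by have := h.1; rw [hz] at this; exact lt_irrefl _ this
    rw [env, if_neg hn, up, tt_inner ha hab hz]
    ring
  have houter : ∀ (x : XT) (z : ℂ), ‖z‖ = b → env a b x z = pot2 x := by
    intro x z hz
    have hn : z ∉ annulus a b := fun h => by have := h.2; rw [hz] at this; exact lt_irrefl _ this
    rw [env, if_neg hn, up, tt_outer ha hab hz]
    ring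
  refine ⟨⟨8, ?_⟩, psh_env ha hab, hinner, houter, ?_, ?_⟩
  · intro x z hz
    have h1 := env_le_up ha hab (x := x) hz
    have h2 := low1_le_env ha hab (x := x) hz
    have h3 := up_bounds ha hab (x := x) hz
    have h4 := tt_mem ha hab hz
    have h5 := pot1_ge x
    unfold low1 at h2
    rw [abs_le]
    constructor <;> linarith
  · intro x z hz
    have hza : z ∈ closedAnnulus a b := by
      rcases hz with h | h
      · exact ⟨h.ge, h.trans_le hab.le⟩
      · exact ⟨hab.le.trans_eq h.symm, h.le⟩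
    have hmem : ((x, z) : XT × ℂ) ∈ univ ×ˢ closedAnnulus a b := ⟨mem_univ _, hza⟩
    have hup : Tendsto (fun q : XT × ℂ => up a b q.1 q.2) (𝓝[univ ×ˢ closedAnnulus a b] (x, z))
        (𝓝 (up a b x z)) := continuousOn_up ha hab (x, z) hmem
    have hle : ∀ᶠ q : XT × ℂ in 𝓝[univ ×ˢ closedAnnulus a b] (x, z),
        env a b q.1 q.2 ≤ up a b q.1 q.2 := by
      filter_upwards [self_mem_nhdsWithin] with q hq
      exact env_le_up ha hab hq.2
    rcases hz with h | h
    · have e1 : env a b x z = up a b x z := by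
        rw [hinner x z h, up, tt_inner ha hab h]; ring
      have e2 : low1 a b x z = up a b x z := by
        rw [low1, up, tt_inner ha hab h]; ring
      have hlow : Tendsto (fun q : XT × ℂ => low1 a b q.1 q.2)
          (𝓝[univ ×ˢ closedAnnulus a b] (x, z)) (𝓝 (low1 a b x z)) :=
        continuousOn_low1 ha hab (x, z) hmem
      rw [e2] at hlow
      have hge : ∀ᶠ q : XT × ℂ in 𝓝[univ ×ˢ closedAnnulus a b] (x, z),
          low1 a b q.1 q.2 ≤ env a b q.1 q.2 := by
        filter_upwards [self_mem_nhdsWithin] with q hq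
        exact low1_le_env ha hab hq.2
      have := tendsto_of_tendsto_of_tendsto_of_le_of_le' hlow hup hge hle
      rw [ContinuousWithinAt]
      simp only [e1]
      exact this
    · have e1 : env a b x z = up a b x z := by
        rw [houter x z h, up, tt_outer ha hab h]; ring
      have e2 : low2 a b x z = up a b x z := by
        rw [low2, up, tt_outer ha hab h]; ring
      have hlow : Tendsto (fun q : XT × ℂ => low2 a b q.1 q.2)
          (𝓝[univ ×ˢ closedAnnulus a b] (x, z)) (𝓝 (low2 a b x z)) :=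
        continuousOn_low2 ha hab (x, z) hmem
      rw [e2] at hlow
      have hge : ∀ᶠ q : XT × ℂ in 𝓝[univ ×ˢ closedAnnulus a b] (x, z),
          low2 a b q.1 q.2 ≤ env a b q.1 q.2 := by
        filter_upwards [self_mem_nhdsWithin] with q hq
        exact low2_le_env ha hab hq.2
      have := tendsto_of_tendsto_of_tendsto_of_le_of_le' hlow hup hge hle
      rw [ContinuousWithinAt]
      simp only [e1]
      exact this
  · rintro v hv ⟨K, hK, hKsub, hle⟩ q hq
    have hcomp : Comp a b v := by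
      refine ⟨hv, fun ε hε => ?_⟩
      rcases K.eq_empty_or_nonempty with rfl | hne
      · refine ⟨1, one_pos, fun x z hz _ => ?_⟩
        have h1 := hle (x, z) ⟨⟨mem_univ _, hz⟩, fun h => h.elim⟩
        have h2 := env_le_up ha hab (x := x) (annulus_subset a b hz)
        simp only at h1
        linarith
      · obtain ⟨q₀, hq₀, hmin⟩ := hK.exists_isMinOn hne
          (f := fun q : XT × ℂ => min (‖q.2‖ - a) (b - ‖q.2‖))
          (Continuous.continuousOn (by fun_prop))
        refine ⟨min (‖q₀.2‖ - a) (b - ‖q₀.2‖), ?_, fun x z hz hor => ?_⟩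
        · have h1 := (hKsub hq₀).2
          rw [lt_min_iff]
          exact ⟨by linarith [h1.1], by linarith [h1.2]⟩
        · have hnK : ((x, z) : XT × ℂ) ∉ K := by
            intro hmem
            have h1 : min (‖q₀.2‖ - a) (b - ‖q₀.2‖) ≤ min (‖z‖ - a) (b - ‖z‖) := hmin hmem
            rcases hor with h | h
            · have h2 := h1.trans (min_le_left _ _)
              linarith
            · have h2 := h1.trans (min_le_right _ _)
              linarith
          have h1 := hle (x, z) ⟨⟨mem_univ _, hz⟩, hnK⟩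
          have h2 := env_le_up ha hab (x := x) (annulus_subset a b hz)
          simp only at h1
          linarith
    exact le_env ha hab hcomp q.1 hq.2

end

end Pool.Agent.H300R3.WG
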