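import Pool.Agent.H300R3.WG.Test

set_option autoImplicit false
open scoped Manifold ContDiff Topology ComplexConjugate
open Set Metric InnerProductSpace Filter MeasureTheory
open Pool.Agent.NKM

namespace Pool.Agent.H300R3.WG

variable {a b : ℝ} {φ : XT → ℂ → ℝ}

lemma lq_eq_zero {χ : ℂ → ℝ} {w : ℂ} (hw : w ∉ tsupport χ) : lq χ w = 0 := by
  have h1 : χ =ᶠ[𝓝 w] fun _ => (0 : ℝ) := notMem_tsupport_iff_eventuallyEq.1 hw
  have h2 := (laplacian_congr_nhds h1).eq_of_nhds
  unfold lq
  rw [h2]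
  simp

lemma levi_shift (lam : ℂ) (p : E1) : leviMatrix (fun p : E1 => ‖p 0 - lam‖ ^ 2) p = 1 := by
  have h : (fun p : E1 => ‖p 0 - lam‖ ^ 2) = fun p : E1 =>
      ((p 0).re - lam.re) ^ 2 + ((p 0).im - lam.im) ^ 2 := by
    funext p; rw [norm_sq_re_im]; rfl
  have hd : ∀ c x : ℝ, HasDerivAt (fun x : ℝ => (x - c) ^ 2) (2 * (x - c)) x := by
    intro c x
    have := ((hasDerivAt_id x).sub_const c).pow 2
    refine this.congr_deriv ?_
    simp
  have hd' : ∀ c x : ℝ, HasDerivAt (fun x : ℝ => 2 * (x - c)) 2 x := by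
    intro c x
    have := ((hasDerivAt_id x).sub_const c).const_mul (2 : ℝ)
    refine this.congr_deriv ?_
    simp
  rw [h, levi_sep (Q := fun x => (x - lam.re) ^ 2) (R := fun x => (x - lam.im) ^ 2)
    (hd _) (hd _) (hd' _) (hd' _)]
  ext j k
  rw [Subsingleton.elim j 0, Subsingleton.elim k 0]
  norm_num

lemma contDiff_shift (lam : ℂ) : ContDiff ℝ ∞ (fun p : E1 => ‖p 0 - lam‖ ^ 2) :=
  (contDiff_norm_sq ℝ).comp ((contDiff_apply ℝ ℂ 0).sub contDiff_const)

/-- No slice of the weak geodesic is strictly positive. -/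
theorem not_strictlyPositive (ha : 0 < a) (hab : a < b)
    (h : IsWeakGeodesic gT pot1 pot2 a b φ) {z : ℂ} (hz : z ∈ annulus a b) :
    ¬ IsStrictlyPositive gT (fun x => φ x z) := by
  rintro ⟨ε, hε, hcur⟩
  -- the bump function
  let f : ContDiffBump (0 : ℂ) := ⟨1 / 2, 1, by norm_num, by norm_num⟩
  have hfs : ContDiff ℝ ∞ f := f.contDiff
  have hfc : HasCompactSupport f := f.hasCompactSupport
  have hft : tsupport f = closedBall (0 : ℂ) 1 := f.tsupport_eq
  set c := ∫ w, f w with hc
  have hc0 : 0 < c := f.integral_pos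
  set C := ∫ w, |lq f w| with hC
  have hC0 : 0 ≤ C := integral_nonneg fun w => abs_nonneg _
  set η := ε * c / (2 * (C + 1)) with hη
  have hη0 : 0 < η := by positivity
  have hηC : η * C < ε * c := by
    have h1 : η * (2 * (C + 1)) = ε * c := by rw [hη]; field_simp
    nlinarith
  obtain ⟨r₀, hr₀, hsmall⟩ := small_bound ha hab h hz hη0
  -- the chart
  set e := chartAt E1 (pi1 0) with he
  have hea : e ∈ atlas E1 XT := chart_mem_atlas _ _
  have hsrc : pr (c1 0) ∈ e.source := mem_chart_source E1 (pi1 0)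
  obtain ⟨g, hg⟩ := chart_pr e hea (c1 0) hsrc
  set lam := lat g with hlam
  have hp0 : c1 lam ∈ e.target := by
    have h1 : e (pr (c1 0)) = g • c1 0 := hg.self_of_nhds
    have h2 : g • c1 0 = c1 lam := by
      funext i; rw [smul_apply, c1_apply, c1_apply, zero_add]
    rw [← h2, ← h1]
    exact e.map_source hsrc
  obtain ⟨R, hR, hRe⟩ := Metric.isOpen_iff.1 e.open_target (c1 lam) hp0
  set r := min r₀ R / 2 with hr
  have hr0 : 0 < r := by rw [hr]; positivity
  have hrr₀ : r < r₀ := by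
    have := min_le_left r₀ R
    rw [hr]; linarith
  have hrR : r < R := by
    have := min_le_right r₀ R
    rw [hr]; linarith
  have hmemt : ∀ p : E1, ‖p 0 - lam‖ ≤ r → p ∈ e.target := by
    intro p hp
    apply hRe
    rw [mem_ball, dist_pi_lt_iff hR]
    intro i
    rw [Subsingleton.elim i 0, c1_apply, dist_eq_norm]
    linarith
  -- the test function
  set χ : E1 → ℝ := fun p => f (r⁻¹ • (p 0 - lam)) with hχ
  have hχs : ContDiff ℝ ∞ χ := by
    have e1 : ContDiff ℝ ∞ (fun p : E1 => p 0 - lam) :=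
      (contDiff_apply ℝ ℂ (0 : Fin 1)).sub contDiff_const
    exact hfs.comp (e1.const_smul r⁻¹)
  have hχz : ∀ w : ℂ, r < ‖w - lam‖ → r⁻¹ • (w - lam) ∉ tsupport f := by
    intro w hw
    rw [hft, mem_closedBall_zero_iff, norm_smul, Real.norm_eq_abs, abs_of_pos (by positivity)]
    push Not
    rw [inv_mul_eq_div, one_lt_div hr0]
    exact hw
  have hsupp : tsupport χ ⊆ {p | ‖p 0 - lam‖ ≤ r} := by
    apply closure_minimal
    · intro p hp
      by_contra hcon
      simp only [mem_ofPred_eq, not_le] at hcon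
      have e1 : f (r⁻¹ • (p 0 - lam)) = 0 := image_eq_zero_of_notMem_tsupport (hχz (p 0) hcon)
      exact hp e1
    · exact isClosed_le (((continuous_apply 0).sub continuous_const).norm) continuous_const
  have hχc : HasCompactSupport χ := by
    apply (isCompact_closedBall (c1 lam) r).of_isClosed_subset (isClosed_tsupport χ)
    intro p hp
    rw [mem_closedBall, dist_pi_le_iff hr0.le]
    intro i
    rw [Subsingleton.elim i 0, c1_apply, dist_eq_norm]
    exact hsupp hp
  have hpot : IsLocalPotential gT e e.target (fun p => ‖p 0 - lam‖ ^ 2) :=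
    ⟨hea, e.open_target, subset_rfl, (contDiff_shift lam).contDiffOn,
      fun p _ => (levi_shift lam p).symm⟩
  have h0 := hcur e e.target _ hpot (c1 1) χ hχs hχc (fun p hp => hmemt p (hsupp hp))
    (fun p => f.nonneg)
  -- rewriting the integrand
  set G : ℂ → ℝ := fun w => ((1 - ε) * ‖w - lam‖ ^ 2 + φ (pi1 w) z) *
    (r⁻¹ ^ 2 * lq f (r⁻¹ • (w - lam))) with hG
  have hint : ∀ p : E1, ((1 - ε) * ‖p 0 - lam‖ ^ 2 + φ (e.symm p) z) *
      (hermForm (leviMatrix χ p) (c1 1)).re = G (p 0) := by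
    intro p
    have h1 : e.symm p = pi1 (p 0) := by rw [chart_symm e hea, pi1, c1_eq]
    have h2 : (hermForm (leviMatrix χ p) (c1 1)).re = r⁻¹ ^ 2 * lq f (r⁻¹ • (p 0 - lam)) := by
      rw [hermForm_fin1, c1_apply, map_one, mul_one, mul_one]
      have h3 := levi_re χ (p 0)
      rw [c1_eq] at h3
      rw [h3]
      exact lq_scale hfs r⁻¹ lam (p 0)
    rw [h1, h2]
  have h1 : (∫ p in e.target, ((1 - ε) * ‖p 0 - lam‖ ^ 2 + φ (e.symm p) z) *
      (hermForm (leviMatrix χ p) (c1 1)).re) = ∫ p : E1, G (p 0) := by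
    simp only [hint]
    apply setIntegral_eq_integral_of_forall_compl_eq_zero
    intro p hp
    have h2 : r < ‖p 0 - lam‖ := by
      by_contra hcon
      push Not at hcon
      exact hp (hmemt p hcon)
    rw [hG]
    simp only
    rw [lq_eq_zero (hχz _ h2)]
    ring
  have h2 : ∫ p : E1, G (p 0) = ∫ w : ℂ, G w :=
    (volume_preserving_funUnique (Fin 1) ℂ).integral_comp' G
  have h3 : ∫ w : ℂ, G w = ∫ w : ℂ, G (w + lam) := (integral_add_right_eq_self G lam).symm
  set H : ℂ → ℝ := fun w => ((1 - ε) * ‖r • w‖ ^ 2 + φ (pi1 (r • w)) z) *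
    (r⁻¹ ^ 2 * lq f w) with hH
  have h4 : (fun w : ℂ => G (w + lam)) = fun w => H (r⁻¹ • w) := by
    funext w
    simp only [hG, hH, add_sub_cancel_right, smul_inv_smul₀ hr0.ne']
    rw [hlam, pi1_add_lat]
  rw [h1, h2, h3, h4, Measure.integral_comp_inv_smul] at h0
  have hI : 0 ≤ ∫ w, H w := by
    have hpos : 0 < |r ^ Module.finrank ℝ ℂ| := by positivity
    rw [smul_eq_mul] at h0
    exact nonneg_of_mul_nonneg_right h0 hpos
  -- splitting
  set A : ℂ → ℝ := fun w => (‖r • w‖ ^ 2 + φ (pi1 (r • w)) z) * r⁻¹ ^ 2 * lq f w with hA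
  have hAle : ∀ w, |A w| ≤ η * |lq f w| := by
    intro w
    by_cases hw : ‖w‖ ≤ 1
    · have hrw : ‖r • w‖ ≤ r := by
        rw [norm_smul, Real.norm_eq_abs, abs_of_pos hr0]; nlinarith
      have e1 := hsmall r hr0 hrr₀ (r • w) hrw
      have e2 := total_nonneg h (r • w) z hz
      rw [hA]
      simp only
      rw [abs_mul, abs_mul, abs_of_nonneg e2, abs_of_nonneg (show (0 : ℝ) ≤ r⁻¹ ^ 2 by positivity)]
      have e3 : (‖r • w‖ ^ 2 + φ (pi1 (r • w)) z) * r⁻¹ ^ 2 ≤ η := by
        calc _ ≤ (η * r ^ 2) * r⁻¹ ^ 2 := by gcongr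
          _ = η := by field_simp
      gcongr
    · have h5 : lq f w = 0 := by
        apply lq_eq_zero
        rw [hft, mem_closedBall_zero_iff]
        exact hw
      rw [hA]
      simp only
      rw [h5]
      simp
  have hlqi : Integrable (lq f) := (contDiff_lq hfs).integrable_of_hasCompactSupport (hcs_lq hfs hfc)
  have hAm : AEStronglyMeasurable A volume := by
    have husc : UpperSemicontinuous fun w : ℂ => φ (pi1 (r • w)) z := by
      have h5 : UpperSemicontinuousOn ((fun q : XT × ℂ => φ q.1 q.2) ∘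
          fun w : ℂ => ((pi1 (r • w), z) : XT × ℂ)) univ := by
        apply h.psh.usc.comp
        · apply Continuous.continuousOn
          exact (continuous_pi1.comp (continuous_const_smul r)).prodMk continuous_const
        · intro w _
          exact ⟨mem_univ _, hz⟩
      exact upperSemicontinuousOn_univ_iff.1 h5
    have hm : Measurable fun w : ℂ => φ (pi1 (r • w)) z := husc.measurable
    have hm2 : Measurable fun w : ℂ => ‖r • w‖ ^ 2 := by fun_prop
    have hm3 : Measurable (lq f) := (contDiff_lq hfs).measurable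
    exact (((hm2.add hm).mul_const _).mul hm3).aestronglyMeasurable
  have hAi : Integrable A := by
    refine Integrable.mono' (hlqi.abs.const_mul η) hAm (Eventually.of_forall fun w => ?_)
    rw [Real.norm_eq_abs]
    exact hAle w
  have hcn : ContDiff ℝ ∞ (fun z : ℂ => ‖z‖ ^ 2) := contDiff_norm_sq ℝ
  have hBi : Integrable fun w : ℂ => ‖w‖ ^ 2 * lq f w :=
    (hcn.continuous.mul (contDiff_lq hfs)).integrable_of_hasCompactSupport
      (hcs_lq hfs hfc).mul_left
  have hsplit : ∀ w, H w = A w - ε * (‖w‖ ^ 2 * lq f w) := by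
    intro w
    simp only [hH, hA]
    have h5 : ‖r • w‖ ^ 2 = r ^ 2 * ‖w‖ ^ 2 := by
      rw [norm_smul, mul_pow, Real.norm_eq_abs, sq_abs]
    rw [h5]
    field_simp
    ring
  have hfin : ∫ w, H w ≤ η * C - ε * c := by
    simp only [hsplit]
    rw [integral_sub hAi (hBi.const_mul ε), integral_const_mul, ibp_lq f hfs hfc, ← hc]
    have h5 : ∫ w, A w ≤ η * C := by
      calc ∫ w, A w ≤ ∫ w, η * |lq f w| :=
            integral_mono hAi (hlqi.abs.const_mul η) fun w => (le_abs_self _).trans (hAle w)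
        _ = η * C := by rw [integral_const_mul]
    linarith
  linarith

end Pool.Agent.H300R3.WG
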