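import Mathlib

set_option autoImplicit false
open scoped ContDiff Topology ComplexConjugate
open Set Metric InnerProductSpace Filter

namespace Pool.Agent.H300R3.WG

/-- `u` is dominated at `c` by the harmonic functions which dominate it on a small circle around
`c`. -/
def SubAt (u : ℂ → ℝ) (c : ℂ) : Prop :=
  ∀ᶠ r in 𝓝[>] (0 : ℝ), ∀ H : ℂ → ℝ, HarmonicOnNhd H (closedBall c r) →
    (∀ ζ ∈ sphere c r, u ζ ≤ H ζ) → u c ≤ H c

lemma harmonicAt_re_mul (a b : ℂ) (x : ℂ) : HarmonicAt (fun ζ : ℂ => (a * ζ + b).re) x := by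
  have h : AnalyticAt ℂ (fun ζ : ℂ => a * ζ + b) x := by fun_prop
  exact h.harmonicAt_re

lemma norm_sq_expand (p ζ : ℂ) :
    ‖ζ‖ ^ 2 = ‖p‖ ^ 2 + 2 * (conj p * (ζ - p)).re + ‖ζ - p‖ ^ 2 := by
  rw [← Complex.normSq_eq_norm_sq, ← Complex.normSq_eq_norm_sq, ← Complex.normSq_eq_norm_sq,
    Complex.normSq_apply, Complex.normSq_apply, Complex.normSq_apply]
  simp only [Complex.mul_re, Complex.conj_re, Complex.conj_im, Complex.sub_re, Complex.sub_im]
  ring

/-- The maximum principle. -/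
theorem max_principle' {K U : Set ℂ} (hK : IsCompact K) (hU : IsOpen U) (hUK : U ⊆ K)
    {u H : ℂ → ℝ} (husc : UpperSemicontinuousOn u K) (hHc : ContinuousOn H K)
    (hH : ∀ ζ ∈ U, HarmonicAt H ζ) (hu : ∀ ζ ∈ U, SubAt u ζ)
    (hb : ∀ ζ ∈ K, ζ ∉ U → u ζ ≤ H ζ) : ∀ ζ ∈ K, u ζ ≤ H ζ := by
  intro ζ₀ hζ₀
  by_contra hcon
  push Not at hcon
  set δ := u ζ₀ - H ζ₀ with hδ
  have hδ0 : 0 < δ := by linarith
  obtain ⟨R, hR⟩ := hK.isBounded.exists_norm_le
  have hR0 : 0 ≤ R := (norm_nonneg _).trans (hR _ hζ₀)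
  set ε := δ / (2 * (R ^ 2 + 1)) with hε
  have hR2 : 0 < 2 * (R ^ 2 + 1) := by positivity
  have hε0 : 0 < ε := div_pos hδ0 hR2
  have hεR : ε * (2 * (R ^ 2 + 1)) = δ := by rw [hε]; field_simp
  set w : ℂ → ℝ := fun ζ => u ζ + (-H ζ + ε * ‖ζ‖ ^ 2) with hw
  have hwusc : UpperSemicontinuousOn w K := by
    apply husc.add
    apply ContinuousOn.upperSemicontinuousOn
    fun_prop
  obtain ⟨p, hpK, hpmax⟩ := hwusc.exists_isMaxOn ⟨ζ₀, hζ₀⟩ hK
  have hpw : δ ≤ w p := by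
    have h1 := hpmax hζ₀
    have h2 : w ζ₀ = u ζ₀ + (-H ζ₀ + ε * ‖ζ₀‖ ^ 2) := rfl
    have h3 : 0 ≤ ε * ‖ζ₀‖ ^ 2 := by positivity
    have h1' : w ζ₀ ≤ w p := h1
    linarith
  have hpint : p ∈ U := by
    by_contra hn
    have h1 := hb p hpK hn
    have h2 : w p = u p + (-H p + ε * ‖p‖ ^ 2) := rfl
    have h3 : ‖p‖ ^ 2 ≤ R ^ 2 := by
      have := hR p hpK
      have := norm_nonneg p
      nlinarith
    nlinarith
  have hev1 : ∀ᶠ r in 𝓝[>] (0 : ℝ), closedBall p r ⊆ U := by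
    obtain ⟨s, hs, hsb⟩ := Metric.isOpen_iff.1 hU p hpint
    filter_upwards [Ioo_mem_nhdsGT hs] with r hr
    exact (closedBall_subset_ball hr.2).trans hsb
  obtain ⟨r, ⟨hr1, hr2⟩, hr3⟩ := ((hev1.and (hu p hpint)).and self_mem_nhdsWithin).exists
  have hr0 : 0 < r := hr3
  set H' : ℂ → ℝ := fun ζ => H ζ + ((-(2 * ε) * conj p) * ζ + (2 * ε * (conj p * p))).re
    + (u p - H p - ε * r ^ 2) with hH'
  have h1 : HarmonicOnNhd H' (closedBall p r) := by
    intro ζ hζ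
    exact ((hH ζ (hr1 hζ)).add (harmonicAt_re_mul _ _ ζ)).add (harmonicAt_const _)
  have h2 := hr2 H' h1 ?_
  · have h3 : H' p = u p - ε * r ^ 2 := by
      simp only [hH']
      have : (-(2 * (ε : ℂ)) * conj p) * p + (2 * ε * (conj p * p)) = 0 := by ring
      rw [this]
      simp
      ring
    rw [h3] at h2
    have : 0 < ε * r ^ 2 := by positivity
    linarith
  · intro ζ hζ
    have hζK : ζ ∈ K := hUK (hr1 (sphere_subset_closedBall hζ))
    have h4 : w ζ ≤ w p := hpmax hζK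
    have h5 := norm_sq_expand p ζ
    have h6 : ‖ζ - p‖ = r := by rw [← mem_sphere_iff_norm]; exact hζ
    have h7 : ((-(2 * (ε : ℂ)) * conj p) * ζ + (2 * ε * (conj p * p))).re
        = - (2 * ε) * (conj p * (ζ - p)).re := by
      have : (-(2 * (ε : ℂ)) * conj p) * ζ + (2 * ε * (conj p * p))
          = ((-(2 * ε) : ℝ) : ℂ) * (conj p * (ζ - p)) := by push_cast; ring
      rw [this, Complex.re_ofReal_mul]
    simp only [hH', h7]
    simp only [hw] at h4
    rw [h6] at h5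
    rw [h5] at h4
    nlinarith

/-- The maximum principle. -/
theorem max_principle {K : Set ℂ} (hK : IsCompact K) {u H : ℂ → ℝ}
    (husc : UpperSemicontinuousOn u K) (hHc : ContinuousOn H K)
    (hH : ∀ ζ ∈ interior K, HarmonicAt H ζ) (hu : ∀ ζ ∈ interior K, SubAt u ζ)
    (hb : ∀ ζ ∈ K, ζ ∉ interior K → u ζ ≤ H ζ) : ∀ ζ ∈ K, u ζ ≤ H ζ :=
  max_principle' hK isOpen_interior interior_subset husc hHc hH hu hb

/-- local subharmonicity is a local property -/
lemma SubAt.congr {u v : ℂ → ℝ} {c : ℂ} (h : u =ᶠ[𝓝 c] v) (hu : SubAt u c) : SubAt v c := by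
  obtain ⟨s, hs, hsb⟩ := Metric.eventually_nhds_iff_ball.1 h
  filter_upwards [hu, Ioo_mem_nhdsGT hs] with r hr hrs H hH hb
  have h1 := hr H hH ?_
  · rwa [hsb c (mem_ball_self hs)] at h1
  · intro ζ hζ
    rw [hsb ζ (closedBall_subset_ball hrs.2 (sphere_subset_closedBall hζ))]
    exact hb ζ hζ

/-- adding a harmonic function -/
lemma SubAt.add_harmonic {u N : ℂ → ℝ} {c : ℂ} (hu : SubAt u c) (hN : HarmonicAt N c) :
    SubAt (fun ζ => u ζ + N ζ) c := by
  obtain ⟨s, hs, hsb⟩ := Metric.eventually_nhds_iff_ball.1 hN.eventually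
  filter_upwards [hu, Ioo_mem_nhdsGT hs] with r hr hrs H hH hb
  have h1 := hr (H - N) ?_ ?_
  · simp only [Pi.sub_apply] at h1
    linarith
  · exact hH.sub fun ζ hζ => hsb ζ (closedBall_subset_ball hrs.2 hζ)
  · intro ζ hζ
    have := hb ζ hζ
    simp only [Pi.sub_apply]
    linarith

/-- a function which lies above a harmonic function touching it at the point is subharmonic
there -/
lemma subAt_of_support {u L : ℂ → ℝ} {c : ℂ} (hL : HarmonicAt L c) (h1 : L c = u c)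
    (h2 : ∀ᶠ ζ in 𝓝 c, L ζ ≤ u ζ) : SubAt u c := by
  obtain ⟨s, hs, hsb⟩ := Metric.eventually_nhds_iff_ball.1 (hL.eventually.and h2)
  filter_upwards [Ioo_mem_nhdsGT hs, self_mem_nhdsWithin] with r hr hr0 H hH hb
  have hr0' : 0 < r := hr0
  have hD : HarmonicOnNhd (H - L) (closedBall c |r|) := by
    rw [abs_of_pos hr0']
    exact hH.sub fun ζ hζ => (hsb ζ (closedBall_subset_ball hr.2 hζ)).1
  have h3 := hD.circleAverage_eq
  have h4 : 0 ≤ Real.circleAverage (H - L) c r := by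
    apply Real.circleAverage_nonneg_of_nonneg
    intro ζ hζ
    rw [abs_of_pos hr0'] at hζ
    have h5 := (hsb ζ (closedBall_subset_ball hr.2 (sphere_subset_closedBall hζ))).2
    have h6 := hb ζ hζ
    simp only [Pi.sub_apply]
    linarith
  rw [h3] at h4
  simp only [Pi.sub_apply] at h4
  linarith

/-- from small discs to all discs -/
lemma sub_of_subAt {u H : ℂ → ℝ} {c : ℂ} {r : ℝ} (hr : 0 < r)
    (husc : UpperSemicontinuousOn u (closedBall c r)) (hu : ∀ ζ ∈ ball c r, SubAt u ζ)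
    (hH : HarmonicOnNhd H (closedBall c r)) (hb : ∀ ζ ∈ sphere c r, u ζ ≤ H ζ) :
    u c ≤ H c := by
  have hi : interior (closedBall c r) = ball c r := interior_closedBall c hr.ne'
  refine max_principle (isCompact_closedBall c r) husc hH.continuousOn ?_ ?_ ?_ c
    (mem_closedBall_self hr.le)
  · intro ζ hζ; exact hH ζ (interior_subset hζ)
  · intro ζ hζ; rw [hi] at hζ; exact hu ζ hζ
  · intro ζ hζ hn
    rw [hi] at hn
    apply hb
    rw [mem_sphere]
    rw [mem_ball, not_lt] at hn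
    exact le_antisymm (mem_closedBall.1 hζ) hn

end Pool.Agent.H300R3.WG
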