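import Pool.Agent.NKM.Defs
import Pool.Agent.NKM.QuotMfd

set_option autoImplicit false
open scoped Manifold ContDiff Topology
open Set Real
open Pool.Agent.NKM

namespace Pool.Agent.H300R3.WG

/-- complex one-space -/
abbrev E1 : Type := Fin 1 → ℂ

/-- The lattice `2π(ℤ + iℤ)`, as a group. -/
def Lam : Type := Multiplicative (ℤ × ℤ)

instance : CommGroup Lam := inferInstanceAs (CommGroup (Multiplicative (ℤ × ℤ)))

/-- the complex number attached to an element of the lattice -/
noncomputable def lat (g : Lam) : ℂ :=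
  2 * π * ((Multiplicative.toAdd g).1 : ℂ) + 2 * π * ((Multiplicative.toAdd g).2 : ℂ) * Complex.I

lemma lat_one : lat 1 = 0 := by
  unfold lat
  have : Multiplicative.toAdd (1 : Lam) = (0 : ℤ × ℤ) := rfl
  rw [this]; simp

lemma lat_mul (g h : Lam) : lat (g * h) = lat g + lat h := by
  unfold lat
  have : Multiplicative.toAdd (g * h : Lam) = Multiplicative.toAdd g + Multiplicative.toAdd h := rfl
  rw [this]; simp; ring

lemma lat_re (g : Lam) : (lat g).re = 2 * π * ((Multiplicative.toAdd g).1 : ℝ) := by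
  unfold lat; simp

lemma lat_im (g : Lam) : (lat g).im = 2 * π * ((Multiplicative.toAdd g).2 : ℝ) := by
  unfold lat; simp

/-- The element of the lattice `2π (m + i n)`. -/
def mkLam (m n : ℤ) : Lam := Multiplicative.ofAdd (m, n)

lemma lat_mkLam_re (m n : ℤ) : (lat (mkLam m n)).re = 2 * π * m := lat_re _
lemma lat_mkLam_im (m n : ℤ) : (lat (mkLam m n)).im = 2 * π * n := lat_im _

lemma lat_injective : Function.Injective lat := by
  intro g h hgh
  have hr := congrArg Complex.re hgh
  have hi := congrArg Complex.im hgh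
  rw [lat_re, lat_re] at hr
  rw [lat_im, lat_im] at hi
  have hp : (2 * π) ≠ 0 := by positivity
  have h1 : (Multiplicative.toAdd g).1 = (Multiplicative.toAdd h).1 := by
    exact_mod_cast mul_left_cancel₀ hp hr
  have h2 : (Multiplicative.toAdd g).2 = (Multiplicative.toAdd h).2 := by
    exact_mod_cast mul_left_cancel₀ hp hi
  exact Prod.ext h1 h2

noncomputable instance : MulAction Lam E1 where
  smul g p := fun i => p i + lat g
  one_smul p := by
    funext i
    change p i + lat 1 = p i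
    rw [lat_one, add_zero]
  mul_smul g h p := by
    funext i
    change p i + lat (g * h) = (p i + lat h) + lat g
    rw [lat_mul]; ring

lemma smul_apply (g : Lam) (p : E1) (i : Fin 1) : (g • p) i = p i + lat g := rfl

lemma smul_eq (g : Lam) (p : E1) : g • p = p + fun _ => lat g := rfl

lemma contDiff_smul (g : Lam) : ContDiff ℂ ω (fun p : E1 => g • p) := by
  have : (fun p : E1 => g • p) = fun p => p + fun _ => lat g := rfl
  rw [this]
  exact contDiff_id.add contDiff_const

lemma hasFDerivAt_smul (g : Lam) (p : E1) :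
    HasFDerivAt (fun p : E1 => g • p) (ContinuousLinearMap.id ℂ E1) p :=
  (hasFDerivAt_id p).add_const _

instance : ContinuousConstSMul Lam E1 := ⟨fun g => (contDiff_smul g).continuous⟩

instance : IsCancelSMul Lam E1 where
  left_cancel' g p p' h := by
    have := congrArg (fun x => g⁻¹ • x) h
    simpa using this
  right_cancel' g h p hgh := by
    have h0 := congrArg (fun x : E1 => x 0) hgh
    simp only [smul_apply] at h0
    exact lat_injective (add_left_cancel h0)

lemma int_mem_Icc {k : ℤ} {R : ℝ} (h : |(k : ℝ)| ≤ R) : k ∈ Set.Icc (-⌈R⌉) ⌈R⌉ := by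
  have h' := abs_le.1 h
  have hc := Int.le_ceil R
  constructor
  · have : (-(⌈R⌉ : ℝ)) ≤ k := by linarith
    exact_mod_cast this
  · have : (k : ℝ) ≤ ⌈R⌉ := by linarith
    exact_mod_cast this

lemma finite_lat (R : ℝ) : Set.Finite {g : Lam | ‖lat g‖ ≤ R} := by
  have hf : Set.Finite ((fun x : ℤ × ℤ => mkLam x.1 x.2) ''
      (Set.Icc (-⌈R⌉) ⌈R⌉ ×ˢ Set.Icc (-⌈R⌉) ⌈R⌉)) :=
    ((Set.finite_Icc _ _).prod (Set.finite_Icc _ _)).image _
  apply hf.subset
  intro g hg
  have hg' : ‖lat g‖ ≤ R := hg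
  have h1 := (Complex.abs_re_le_norm (lat g)).trans hg'
  have h2 := (Complex.abs_im_le_norm (lat g)).trans hg'
  rw [lat_re] at h1
  rw [lat_im] at h2
  have hpi : (1 : ℝ) ≤ 2 * π := by have := Real.pi_gt_three; linarith
  have hb : ∀ k : ℤ, |2 * π * (k : ℝ)| ≤ R → |(k : ℝ)| ≤ R := by
    intro k hk
    rw [abs_mul, abs_of_pos (show (0 : ℝ) < 2 * π by positivity)] at hk
    nlinarith [abs_nonneg (k : ℝ)]
  exact ⟨Multiplicative.toAdd g, ⟨int_mem_Icc (hb _ h1), int_mem_Icc (hb _ h2)⟩, rfl⟩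

instance : ProperlyDiscontinuousSMul Lam E1 where
  finite_disjoint_inter_image := by
    intro K L hK hL
    obtain ⟨C1, hC1⟩ := hK.isBounded.exists_norm_le
    obtain ⟨C2, hC2⟩ := hL.isBounded.exists_norm_le
    apply (finite_lat (C1 + C2)).subset
    rintro g ⟨p', ⟨p, hp, hgp⟩, hp'⟩
    have hgp' : g • p = p' := hgp
    have h1 : lat g = p' 0 - p 0 := by rw [← hgp', smul_apply]; ring
    change ‖lat g‖ ≤ C1 + C2
    rw [h1]
    calc ‖p' 0 - p 0‖ ≤ ‖p' 0‖ + ‖p 0‖ := norm_sub_le _ _
      _ ≤ ‖p'‖ + ‖p‖ := add_le_add (norm_le_pi_norm _ _) (norm_le_pi_norm _ _)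
      _ ≤ C1 + C2 := by linarith [hC1 p hp, hC2 p' hp']

/-- The elliptic curve `X = ℂ / 2π(ℤ + iℤ)`. -/
noncomputable def XT : Type := MulAction.orbitRel.Quotient Lam E1

instance : TopologicalSpace XT :=
  inferInstanceAs (TopologicalSpace (MulAction.orbitRel.Quotient Lam E1))

/-- the projection `ℂ → X` -/
noncomputable def pr : E1 → XT := Quotient.mk (MulAction.orbitRel Lam E1)

lemma pr_cov : IsQuotientCoveringMap pr Lam :=
  isQuotientCoveringMap_quotientMk_of_properlyDiscontinuousSMul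

instance : T2Space XT :=
  inferInstanceAs (T2Space (Quotient (MulAction.orbitRel Lam E1)))

noncomputable instance : ChartedSpace E1 XT := QuotMfd.cs pr_cov

instance : IsManifold 𝓘(ℂ, E1) ω XT := QuotMfd.isManifold pr_cov contDiff_smul

instance : Nonempty XT := ⟨pr 0⟩

instance : ConnectedSpace XT := by
  have : ConnectedSpace E1 := inferInstance
  exact pr_cov.surjective.connectedSpace pr_cov.continuous

lemma pr_smul (g : Lam) (p : E1) : pr (g • p) = pr p := pr_cov.map_smul g

lemma pr_eq_iff (p q : E1) : pr p = pr q ↔ ∃ g : Lam, g • q = p := by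
  rw [pr_cov.apply_eq_iff_mem_orbit]
  rfl

/-- the complex line as `E1` -/
def c1 (w : ℂ) : E1 := fun _ => w

@[simp] lemma c1_apply (w : ℂ) (i : Fin 1) : c1 w i = w := rfl

lemma c1_eq (p : E1) : c1 (p 0) = p := by
  funext i; rw [c1_apply, Subsingleton.elim i 0]

lemma continuous_c1 : Continuous c1 := continuous_pi fun _ => continuous_id

/-- the projection `ℂ → X` -/
noncomputable def pi1 (w : ℂ) : XT := pr (c1 w)

lemma continuous_pi1 : Continuous pi1 := pr_cov.continuous.comp continuous_c1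

lemma pi1_surjective : Function.Surjective pi1 := by
  intro x
  obtain ⟨p, rfl⟩ := pr_cov.surjective x
  exact ⟨p 0, by rw [pi1, c1_eq]⟩

lemma pi1_add_lat (w : ℂ) (g : Lam) : pi1 (w + lat g) = pi1 w := by
  have : c1 (w + lat g) = g • c1 w := rfl
  rw [pi1, this, pr_smul]; rfl

lemma pi1_eq_iff (w w' : ℂ) : pi1 w = pi1 w' ↔ ∃ g : Lam, w = w' + lat g := by
  rw [pi1, pi1, pr_eq_iff]
  constructor
  · rintro ⟨g, hg⟩
    exact ⟨g, (congrArg (fun p : E1 => p 0) hg).symm⟩
  · rintro ⟨g, hg⟩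
    refine ⟨g, ?_⟩
    funext i
    rw [smul_apply, c1_apply, c1_apply, hg]

lemma floor_mem' (x : ℝ) : x + 2 * π * (-⌊x / (2 * π)⌋ : ℤ) ∈ Ico 0 (2 * π) := by
  have hc : 0 < 2 * π := by positivity
  have h1 := Int.floor_le (x / (2 * π))
  have h2 := Int.lt_floor_add_one (x / (2 * π))
  push_cast
  constructor
  · have : ⌊x / (2 * π)⌋ * (2 * π) ≤ x := by
      rw [← le_div_iff₀ hc]; exact h1
    linarith
  · have : x < (⌊x / (2 * π)⌋ + 1) * (2 * π) := by
      rw [← div_lt_iff₀ hc]; exact h2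
    linarith

/-- the closed fundamental square -/
def sqr : Set ℂ := {w | w.re ∈ Icc 0 (2 * π) ∧ w.im ∈ Icc 0 (2 * π)}

lemma isCompact_sqr : IsCompact sqr := by
  have h : sqr = Icc 0 (2 * π) ×ℂ Icc 0 (2 * π) := rfl
  rw [h]
  exact isCompact_Icc.reProdIm isCompact_Icc

lemma exists_sqr (x : XT) : ∃ w ∈ sqr, pi1 w = x := by
  obtain ⟨w, rfl⟩ := pi1_surjective x
  set g := mkLam (-⌊w.re / (2 * π)⌋) (-⌊w.im / (2 * π)⌋) with hg
  refine ⟨w + lat g, ⟨?_, ?_⟩, pi1_add_lat w g⟩
  · rw [Complex.add_re, hg, lat_mkLam_re]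
    exact Ico_subset_Icc_self (floor_mem' _)
  · rw [Complex.add_im, hg, lat_mkLam_im]
    exact Ico_subset_Icc_self (floor_mem' _)

instance : CompactSpace XT := by
  constructor
  have himg : (univ : Set XT) = pi1 '' sqr := by
    apply Subset.antisymm
    · intro x _
      obtain ⟨w, hw, rfl⟩ := exists_sqr x
      exact ⟨w, hw, rfl⟩
    · exact subset_univ _
  rw [himg]
  exact isCompact_sqr.image continuous_pi1

/-- every chart of `X` is a local inverse of the projection -/
lemma chart_symm (e : OpenPartialHomeomorph XT E1) (he : e ∈ atlas E1 XT) (p : E1) :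
    e.symm p = pr p := by
  obtain ⟨x, rfl⟩ := QuotMfd.mem_atlas pr_cov e he
  rw [IsLocalHomeomorph.localInverseAt_symm]

/-- the chart of a projected point differs from the point by a lattice vector -/
lemma chart_pr (e : OpenPartialHomeomorph XT E1) (he : e ∈ atlas E1 XT) (v : E1)
    (hv : pr v ∈ e.source) : ∃ g : Lam, ∀ᶠ u in 𝓝 v, e (pr u) = g • u := by
  obtain ⟨x, rfl⟩ := QuotMfd.mem_atlas pr_cov e he
  exact QuotMfd.localInverse_eq_smul pr_cov x v hv

end Pool.Agent.H300R3.WG
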