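import Pool.Agent.H300R3.WG.Defs
import Pool.Agent.H300R3.WG.Torus
import Pool.Agent.H300R3.WG.Sub

set_option autoImplicit false
open scoped Manifold ContDiff Topology ComplexConjugate
open Set Metric InnerProductSpace Filter
open Pool.Agent.NKM

namespace Pool.Agent.H300R3.WG

lemma E1_single (w : ℂ) : (Pi.single (0 : Fin 1) w : E1) = c1 w := by
  funext i; rw [Subsingleton.elim i 0]; simp

/-- the coordinate as a real continuous linear equivalence -/
noncomputable def cE : ℂ ≃L[ℝ] E1 := (ContinuousLinearEquiv.funUnique (Fin 1) ℝ ℂ).symm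

lemma cE_apply (w : ℂ) : cE w = c1 w := by
  funext i; rfl

/-- second derivatives in the coordinate of the complex line -/
lemma secondDeriv_c1 (f : E1 → ℝ) (w v v' : ℂ) :
    secondDeriv f (c1 w) (c1 v) (c1 v') = iteratedFDeriv ℝ 2 (fun z => f (c1 z)) w ![v, v'] := by
  have h := cE.iteratedFDerivWithin_comp_right f (s := univ) uniqueDiffOn_univ
    (x := w) (mem_univ _) 2
  rw [preimage_univ, iteratedFDerivWithin_univ, iteratedFDerivWithin_univ] at h
  have h2 : (f ∘ cE) = fun z => f (c1 z) := by funext z; simp [cE_apply]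
  rw [h2] at h
  rw [h]
  unfold secondDeriv
  simp only [ContinuousMultilinearMap.compContinuousLinearMap_apply, cE_apply]
  congr 1
  funext i
  fin_cases i <;> simp [cE_apply]

lemma levi_re (f : E1 → ℝ) (w : ℂ) :
    (leviMatrix f (c1 w) 0 0).re = (Laplacian.laplacian (fun z => f (c1 z)) w) / 4 := by
  rw [laplacian_eq_iteratedFDeriv_complexPlane]
  simp only [leviMatrix, Matrix.of_apply, E1_single, secondDeriv_c1]
  have : (4 : ℂ) = ((4 : ℝ) : ℂ) := by norm_num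
  rw [this, Complex.div_ofReal_re]
  simp

/-- functions of the form `Q(Re w) + R(Im w)` -/
lemma hasFDerivAt_sep {Q R Q' R' : ℝ → ℝ} (hQ : ∀ x, HasDerivAt Q (Q' x) x)
    (hR : ∀ x, HasDerivAt R (R' x) x) (w : ℂ) :
    HasFDerivAt (fun w : ℂ => Q w.re + R w.im)
      (Q' w.re • Complex.reCLM + R' w.im • Complex.imCLM) w := by
  have h1 := (hQ w.re).hasFDerivAt.comp w (Complex.reCLM.hasFDerivAt (x := w))
  have h2 := (hR w.im).hasFDerivAt.comp w (Complex.imCLM.hasFDerivAt (x := w))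
  refine (h1.add h2).congr_fderiv ?_
  ext v <;> simp [mul_comm]

lemma iterated_sep {Q R Q' R' Q'' R'' : ℝ → ℝ} (hQ : ∀ x, HasDerivAt Q (Q' x) x)
    (hR : ∀ x, HasDerivAt R (R' x) x) (hQ' : ∀ x, HasDerivAt Q' (Q'' x) x)
    (hR' : ∀ x, HasDerivAt R' (R'' x) x) (w v v' : ℂ) :
    iteratedFDeriv ℝ 2 (fun w : ℂ => Q w.re + R w.im) w ![v, v'] =
      Q'' w.re * v.re * v'.re + R'' w.im * v.im * v'.im := by
  rw [iteratedFDeriv_two_apply]
  have h1 : fderiv ℝ (fun w : ℂ => Q w.re + R w.im) = fun w : ℂ =>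
      Q' w.re • Complex.reCLM + R' w.im • Complex.imCLM := by
    funext w; exact (hasFDerivAt_sep hQ hR w).fderiv
  rw [h1]
  have h2 : HasFDerivAt (fun w : ℂ => Q' w.re • Complex.reCLM + R' w.im • Complex.imCLM)
      ((((Q'' w.re) • Complex.reCLM).smulRight Complex.reCLM) +
        (((R'' w.im) • Complex.imCLM).smulRight Complex.imCLM)) w := by
    have e1 := (hQ' w.re).hasFDerivAt.comp w (Complex.reCLM.hasFDerivAt (x := w))
    have e2 := (hR' w.im).hasFDerivAt.comp w (Complex.imCLM.hasFDerivAt (x := w))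
    have e3 := (e1.smul_const Complex.reCLM).add (e2.smul_const Complex.imCLM)
    refine e3.congr_fderiv ?_
    ext v v' <;> simp [mul_comm]
  rw [h2.fderiv]
  simp

lemma levi_sep {Q R Q' R' Q'' R'' : ℝ → ℝ} (hQ : ∀ x, HasDerivAt Q (Q' x) x)
    (hR : ∀ x, HasDerivAt R (R' x) x) (hQ' : ∀ x, HasDerivAt Q' (Q'' x) x)
    (hR' : ∀ x, HasDerivAt R' (R'' x) x) (p : E1) :
    leviMatrix (fun p : E1 => Q (p 0).re + R (p 0).im) p =
      Matrix.of fun _ _ => (((Q'' (p 0).re + R'' (p 0).im) / 4 : ℝ) : ℂ) := by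
  ext j k
  rw [Subsingleton.elim j 0, Subsingleton.elim k 0]
  conv_lhs => rw [← c1_eq p]
  simp only [leviMatrix, Matrix.of_apply, E1_single, secondDeriv_c1, c1_apply]
  rw [iterated_sep hQ hR hQ' hR', iterated_sep hQ hR hQ' hR', iterated_sep hQ hR hQ' hR',
    iterated_sep hQ hR hQ' hR']
  simp

lemma hasDerivAt_sq' (x : ℝ) : HasDerivAt (fun x : ℝ => x ^ 2) (2 * x) x := by
  simpa using hasDerivAt_pow 2 x

lemma hasDerivAt_two_mul (x : ℝ) : HasDerivAt (fun x : ℝ => 2 * x) 2 x := by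
  simpa using (hasDerivAt_id x).const_mul (2 : ℝ)

lemma norm_sq_re_im (w : ℂ) : ‖w‖ ^ 2 = w.re ^ 2 + w.im ^ 2 := by
  rw [← Complex.normSq_eq_norm_sq, Complex.normSq_apply]; ring

lemma contDiff_normSq1 : ContDiff ℝ ∞ (fun p : E1 => ‖p 0‖ ^ 2) := by
  have h : (fun p : E1 => ‖p 0‖ ^ 2) = fun p : E1 => (p 0).re ^ 2 + (p 0).im ^ 2 := by
    funext p; exact norm_sq_re_im _
  rw [h]
  have h1 : ContDiff ℝ ∞ (fun p : E1 => (p 0).re) :=
    Complex.reCLM.contDiff.comp (contDiff_apply ℝ ℂ 0)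
  have h2 : ContDiff ℝ ∞ (fun p : E1 => (p 0).im) :=
    Complex.imCLM.contDiff.comp (contDiff_apply ℝ ℂ 0)
  exact (h1.pow 2).add (h2.pow 2)

lemma levi_normSq (p : E1) : leviMatrix (fun p : E1 => ‖p 0‖ ^ 2) p = 1 := by
  have h : (fun p : E1 => ‖p 0‖ ^ 2) = fun p : E1 => (p 0).re ^ 2 + (p 0).im ^ 2 := by
    funext p; exact norm_sq_re_im _
  rw [h, levi_sep (Q := fun x => x ^ 2) (R := fun x => x ^ 2) hasDerivAt_sq' hasDerivAt_sq'
    hasDerivAt_two_mul hasDerivAt_two_mul]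
  ext j k
  rw [Subsingleton.elim j 0, Subsingleton.elim k 0]
  norm_num

lemma hermForm_fin1 (A : Matrix (Fin 1) (Fin 1) ℂ) (v : E1) :
    hermForm A v = A 0 0 * v 0 * conj (v 0) := by
  simp [hermForm]

/-- The flat Kähler metric of the elliptic curve, `ω = i dz ∧ dz̄`. -/
noncomputable def gT : HermitianMetric 1 XT where
  coeff _ _ := 1
  smooth _ _ _ _ := contDiffOn_const
  hermitian _ _ _ _ := Matrix.isHermitian_one
  pos e _ p _ v hv := by
    rw [hermForm_fin1, Matrix.one_apply_eq, one_mul, Complex.mul_conj]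
    have h0 : v 0 ≠ 0 := by
      intro h
      apply hv
      funext i
      rw [Subsingleton.elim i 0, h]
      rfl
    rw [Complex.ofReal_re]
    exact Complex.normSq_pos.2 h0
  compat e he e' he' p hp hpe v := by
    have h1 : e.symm p = pr p := chart_symm e he p
    rw [h1] at hpe
    obtain ⟨g, hg⟩ := chart_pr e' he' p hpe
    have h2 : (fun q => e' (e.symm q)) =ᶠ[𝓝 p] fun q => g • q := by
      filter_upwards [hg] with q hq
      rw [chart_symm e he q, hq]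
    have h3 : fderiv ℂ (fun q => e' (e.symm q)) p = ContinuousLinearMap.id ℂ E1 := by
      rw [h2.fderiv_eq]
      exact (hasFDerivAt_smul g p).fderiv
    rw [h3]
    rfl

lemma isLocalPotential_normSq {e : OpenPartialHomeomorph XT E1} (he : e ∈ atlas E1 XT)
    {V : Set E1} (hV : IsOpen V) (hVe : V ⊆ e.target) :
    IsLocalPotential gT e V (fun p => ‖p 0‖ ^ 2) :=
  ⟨he, hV, hVe, contDiff_normSq1.contDiffOn, fun p _ => (levi_normSq p).symm⟩

theorem isKahler_gT : IsKahler gT := by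
  intro e he p hp
  exact ⟨e.target, fun p => ‖p 0‖ ^ 2, hp, isLocalPotential_normSq he e.open_target subset_rfl⟩

lemma laplacian_normSq (w : ℂ) : Laplacian.laplacian (fun z : ℂ => ‖z‖ ^ 2) w = 4 := by
  have h := levi_re (fun p : E1 => ‖p 0‖ ^ 2) w
  rw [levi_normSq] at h
  simp only [Matrix.one_apply_eq, Complex.one_re, c1_apply] at h
  linarith

/-- the difference of two local potentials is harmonic -/
lemma harmonicAt_diff {e : OpenPartialHomeomorph XT E1} {V : Set E1} {ρ : E1 → ℝ}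
    (h : IsLocalPotential gT e V ρ) {w : ℂ} (hw : c1 w ∈ V) :
    HarmonicAt (fun z : ℂ => ρ (c1 z) - ‖z‖ ^ 2) w := by
  have hopen : IsOpen {z : ℂ | c1 z ∈ V} := h.isOpen.preimage continuous_c1
  have hcd : ∀ z ∈ {z : ℂ | c1 z ∈ V}, ContDiffAt ℝ 2 (fun z : ℂ => ρ (c1 z)) z := by
    intro z hz
    have h1 : ContDiffAt ℝ 2 ρ (cE z) := by
      rw [cE_apply]
      exact (h.smooth.contDiffAt (h.isOpen.mem_nhds hz)).of_le (by norm_cast)
    have h2 : (fun z : ℂ => ρ (c1 z)) = ρ ∘ cE := by funext z; simp [cE_apply]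
    rw [h2]
    exact h1.comp z cE.contDiff.contDiffAt
  have hcn : ContDiff ℝ 2 (fun z : ℂ => ‖z‖ ^ 2) := contDiff_norm_sq ℝ
  refine ⟨(hcd w hw).sub hcn.contDiffAt, ?_⟩
  filter_upwards [hopen.mem_nhds hw] with z hz
  have h3 : Laplacian.laplacian (fun z : ℂ => ρ (c1 z)) z = 4 := by
    have h4 := levi_re ρ z
    rw [← h.eq_levi _ hz] at h4
    simp only [gT, Matrix.one_apply_eq, Complex.one_re] at h4
    linarith
  have h5 : (fun z : ℂ => ρ (c1 z) - ‖z‖ ^ 2) =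
      (fun z : ℂ => ρ (c1 z)) - (fun z : ℂ => ‖z‖ ^ 2) := rfl
  rw [h5, (hcd z hz).laplacian_sub hcn.contDiffAt, h3, laplacian_normSq]
  simp

/-- composition of a harmonic function with a holomorphic function -/
lemma harmonicAt_comp {N : ℂ → ℝ} {y : ℂ → ℂ} {ζ : ℂ} (hN : HarmonicAt N (y ζ))
    (hy : AnalyticAt ℂ y ζ) : HarmonicAt (fun z => N (y z)) ζ := by
  obtain ⟨s, hs, hsb⟩ := Metric.eventually_nhds_iff_ball.1 hN.eventually
  obtain ⟨F, hF1, hF2⟩ := HarmonicOnNhd.exists_analyticOnNhd_ball_re_eq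
    (f := N) (z := y ζ) (R := s) (fun x hx => hsb x hx)
  have h1 : AnalyticAt ℂ (fun z => F (y z)) ζ :=
    (hF1 (y ζ) (mem_ball_self hs)).comp hy
  have h2 := h1.harmonicAt_re
  refine (harmonicAt_congr_nhds ?_).1 h2
  have h3 : ∀ᶠ z in 𝓝 ζ, y z ∈ ball (y ζ) s :=
    hy.continuousAt.eventually (ball_mem_nhds _ hs)
  filter_upwards [h3] with z hz
  exact hF2 hz

/-- A `π^*ω`-psh function is subharmonic along holomorphic curves of `ℂ × A`. -/
theorem subAt_of_psh {A : Set ℂ} (hA : IsOpen A) {φ : XT → ℂ → ℝ}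
    (hφ : IsOmegaPsh gT (univ ×ˢ A) φ) {x z : ℂ → ℂ} {c : ℂ} (hx : AnalyticAt ℂ x c)
    (hz : AnalyticAt ℂ z c) (hzA : z c ∈ A) :
    SubAt (fun ζ => ‖x ζ‖ ^ 2 + φ (pi1 (x ζ)) (z ζ)) c := by
  set e := chartAt E1 (pi1 (x c)) with he
  have hea : e ∈ atlas E1 XT := chart_mem_atlas _ _
  have hsrc : pr (c1 (x c)) ∈ e.source := mem_chart_source E1 (pi1 (x c))
  obtain ⟨g, hg⟩ := chart_pr e hea (c1 (x c)) hsrc
  have hxc : Tendsto (fun ζ => c1 (x ζ)) (𝓝 c) (𝓝 (c1 (x c))) :=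
    (continuous_c1.tendsto _).comp hx.continuousAt
  have ev1 : ∀ᶠ ζ in 𝓝 c, e (pi1 (x ζ)) = g • c1 (x ζ) := hxc.eventually hg
  have ev2 : ∀ᶠ ζ in 𝓝 c, pi1 (x ζ) ∈ e.source := by
    have h1 : Tendsto (fun ζ => pi1 (x ζ)) (𝓝 c) (𝓝 (pi1 (x c))) :=
      (continuous_pi1.tendsto _).comp hx.continuousAt
    exact h1.eventually (e.open_source.mem_nhds hsrc)
  have ev3 : ∀ᶠ ζ in 𝓝 c, z ζ ∈ A := hz.continuousAt.eventually (hA.mem_nhds hzA)
  have ev4 : ∀ᶠ ζ in 𝓝 c, AnalyticAt ℂ x ζ := hx.eventually_analyticAt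
  have ev5 : ∀ᶠ ζ in 𝓝 c, AnalyticAt ℂ z ζ := hz.eventually_analyticAt
  obtain ⟨s, hs, hsb⟩ := Metric.eventually_nhds_iff_ball.1
    (ev1.and (ev2.and (ev3.and (ev4.and ev5))))
  filter_upwards [Ioo_mem_nhdsGT hs] with r hr H hH hb
  have hsub : closedBall c r ⊆ ball c s := closedBall_subset_ball hr.2
  set f : ℂ → E1 := fun ζ => g • c1 (x ζ) with hf
  have hfe : ∀ ζ ∈ closedBall c r, f ζ ∈ e.target ∧ e.symm (f ζ) = pi1 (x ζ) := by
    intro ζ hζ
    have h1 := (hsb ζ (hsub hζ)).1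
    have h2 := (hsb ζ (hsub hζ)).2.1
    rw [hf]
    refine ⟨?_, ?_⟩
    · change g • c1 (x ζ) ∈ e.target
      rw [← h1]; exact e.map_source h2
    · rw [chart_symm e hea]
      exact pr_smul _ _
  have hfa : AnalyticOnNhd ℂ f (closedBall c r) := by
    intro ζ hζ
    have h1 : AnalyticAt ℂ x ζ := (hsb ζ (hsub hζ)).2.2.2.1
    have h2 : f = fun ζ => fun _ : Fin 1 => x ζ + lat g := rfl
    rw [h2, analyticAt_pi_iff]
    intro i
    exact h1.add analyticAt_const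
  have hza : AnalyticOnNhd ℂ z (closedBall c r) := fun ζ hζ => (hsb ζ (hsub hζ)).2.2.2.2
  have hexp : ∀ ζ, ‖f ζ 0‖ ^ 2 = ‖x ζ‖ ^ 2 +
      ((2 * conj (lat g)) * x ζ + ((‖lat g‖ ^ 2 : ℝ) : ℂ)).re := by
    intro ζ
    have h1 : f ζ 0 = x ζ + lat g := rfl
    rw [h1, ← Complex.normSq_eq_norm_sq, ← Complex.normSq_eq_norm_sq, ← Complex.normSq_eq_norm_sq,
      Complex.normSq_add, Complex.add_re, Complex.ofReal_re]
    have h2 : (2 * conj (lat g)) * x ζ = ((2 : ℝ) : ℂ) * (x ζ * conj (lat g)) := by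
      push_cast; ring
    rw [h2, Complex.re_ofReal_mul]
    ring
  have hharm : HarmonicOnNhd (fun ζ => H ζ +
      ((2 * conj (lat g)) * x ζ + ((‖lat g‖ ^ 2 : ℝ) : ℂ)).re) (closedBall c r) := by
    intro ζ hζ
    have h1 : AnalyticAt ℂ x ζ := (hsb ζ (hsub hζ)).2.2.2.1
    have h2 : AnalyticAt ℂ (fun ζ => (2 * conj (lat g)) * x ζ + ((‖lat g‖ ^ 2 : ℝ) : ℂ)) ζ := by
      fun_prop
    exact (hH ζ hζ).add h2.harmonicAt_re
  have key := hφ.sub e e.target (fun p => ‖p 0‖ ^ 2)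
    (isLocalPotential_normSq hea e.open_target subset_rfl) c r f z _ hr.1 hfa hza hharm
    (fun ζ hζ => ⟨(hfe ζ hζ).1, mem_univ _, (hsb ζ (hsub hζ)).2.2.1⟩)
    (fun ζ hζ => by
      have h1 := hb ζ hζ
      rw [(hfe ζ (sphere_subset_closedBall hζ)).2, hexp ζ]
      linarith)
  rw [(hfe c (mem_closedBall_self hr.1.le)).2, hexp c] at key
  linarith

/-- Conversely, it is enough to check subharmonicity along small holomorphic curves. -/
theorem psh_of_subAt {A : Set ℂ} {φ : XT → ℂ → ℝ}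
    (husc : UpperSemicontinuousOn (fun q : XT × ℂ => φ q.1 q.2) (univ ×ˢ A))
    (h : ∀ (x z : ℂ → ℂ) (c : ℂ), AnalyticAt ℂ x c → AnalyticAt ℂ z c → z c ∈ A →
      SubAt (fun ζ => ‖x ζ‖ ^ 2 + φ (pi1 (x ζ)) (z ζ)) c) :
    IsOmegaPsh gT (univ ×ˢ A) φ := by
  refine ⟨husc, ?_⟩
  intro e V ρ hρ c r f z H hr hf hz hH hmem hb
  have hfe : ∀ ζ, e.symm (f ζ) = pi1 (f ζ 0) := by
    intro ζ
    rw [chart_symm e hρ.mem_atlas, pi1, c1_eq]
  have hf0 : ∀ ζ ∈ closedBall c r, AnalyticAt ℂ (fun ζ => f ζ 0) ζ := by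
    intro ζ hζ
    exact (analyticAt_pi_iff.1 (hf ζ hζ)) 0
  have husc' : UpperSemicontinuousOn
      (fun ζ => φ (e.symm (f ζ)) (z ζ) + ρ (f ζ)) (closedBall c r) := by
    apply UpperSemicontinuousOn.add
    · have h1 := husc.comp (g := fun ζ : ℂ => ((pi1 (f ζ 0), z ζ) : XT × ℂ)) (t := closedBall c r)
        ?_ ?_
      · have h2 : ((fun q : XT × ℂ => φ q.1 q.2) ∘ fun ζ : ℂ => ((pi1 (f ζ 0), z ζ) : XT × ℂ))
            = fun ζ => φ (e.symm (f ζ)) (z ζ) := by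
          funext ζ; simp [hfe]
        rwa [h2] at h1
      · apply ContinuousOn.prodMk
        · intro ζ hζ
          exact ((continuous_pi1.continuousAt).comp (hf0 ζ hζ).continuousAt).continuousWithinAt
        · exact hz.continuousOn
      · intro ζ hζ
        exact ⟨mem_univ _, (hmem ζ hζ).2.2⟩
    · apply ContinuousOn.upperSemicontinuousOn
      exact hρ.smooth.continuousOn.comp hf.continuousOn (fun ζ hζ => (hmem ζ hζ).1)
  have key := sub_of_subAt (u := fun ζ => φ (e.symm (f ζ)) (z ζ) + ρ (f ζ)) hr husc' ?_ hH ?_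
  · linarith
  · intro ζ hζ
    have hζ' := ball_subset_closedBall hζ
    have h1 := h (fun ζ => f ζ 0) z ζ (hf0 ζ hζ') (hz ζ hζ') (hmem ζ hζ').2.2
    have h2 : c1 (f ζ 0) ∈ V := by rw [c1_eq]; exact (hmem ζ hζ').1
    have h3 := harmonicAt_comp (N := fun z : ℂ => ρ (c1 z) - ‖z‖ ^ 2) (y := fun ζ => f ζ 0)
      (ζ := ζ) (harmonicAt_diff hρ h2) (hf0 ζ hζ')
    refine (h1.add_harmonic h3).congr (Eventually.of_forall fun ζ' => ?_)
    simp only [c1_eq, hfe]
    ring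
  · intro ζ hζ
    have := hb ζ hζ
    linarith

end Pool.Agent.H300R3.WG
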