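import Pool.Agent.H300R3.WG.Disc

set_option autoImplicit false
open scoped Manifold ContDiff Topology ComplexConjugate
open Set Metric InnerProductSpace Filter
open Pool.Agent.NKM

namespace Pool.Agent.H300R3.WG

lemma isOpen_annulus (a b : ℝ) : IsOpen (annulus a b) := by
  have h1 : annulus a b = (fun z : ℂ => ‖z‖) ⁻¹' Ioo a b := rfl
  rw [h1]; exact isOpen_Ioo.preimage continuous_norm

lemma annulus_subset (a b : ℝ) : annulus a b ⊆ closedAnnulus a b :=
  fun _ hz => ⟨hz.1.le, hz.2.le⟩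

lemma isCompact_closedAnnulus (a b : ℝ) : IsCompact (closedAnnulus a b) := by
  have h1 : closedAnnulus a b = (fun z : ℂ => ‖z‖) ⁻¹' Icc a b := rfl
  apply (isCompact_closedBall (0 : ℂ) b).of_isClosed_subset
  · rw [h1]; exact isClosed_Icc.preimage continuous_norm
  · intro z hz
    rw [mem_closedBall_zero_iff]; exact hz.2

lemma boundary_cases {a b : ℝ} {z : ℂ} (hz : z ∈ closedAnnulus a b) (hn : z ∉ annulus a b) :
    ‖z‖ = a ∨ ‖z‖ = b := by
  by_contra hcon
  push Not at hcon
  exact hn ⟨lt_of_le_of_ne hz.1 (Ne.symm hcon.1), lt_of_le_of_ne hz.2 hcon.2⟩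

variable {a b : ℝ} {φ : XT → ℂ → ℝ}

lemma usc_closed {φ₁ φ₂ : XT → ℝ} (h : IsWeakGeodesic gT φ₁ φ₂ a b φ) :
    UpperSemicontinuousOn (fun q : XT × ℂ => φ q.1 q.2) (univ ×ˢ closedAnnulus a b) := by
  rintro ⟨x, z⟩ ⟨_, hz⟩
  by_cases hza : z ∈ annulus a b
  · have h1 : UpperSemicontinuousWithinAt (fun q : XT × ℂ => φ q.1 q.2)
        (univ ×ˢ annulus a b) (x, z) := h.psh.usc (x, z) ⟨mem_univ _, hza⟩
    have h2 : univ ×ˢ annulus a b ∈ 𝓝 (x, z) :=
      (isOpen_univ.prod (isOpen_annulus a b)).mem_nhds ⟨mem_univ _, hza⟩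
    intro y hy
    have h3 := h1 y hy
    rw [nhdsWithin_eq_nhds.2 h2] at h3
    exact nhdsWithin_le_nhds h3
  · exact (h.continuous_boundary x z (boundary_cases hz hza)).upperSemicontinuousWithinAt

/-- subharmonicity in the time variable -/
lemma subAt_time {A : Set ℂ} (hA : IsOpen A) {v : XT → ℂ → ℝ}
    (hv : IsOmegaPsh gT (univ ×ˢ A) v) (x : XT) {z : ℂ} (hz : z ∈ A) :
    SubAt (fun ζ => v x ζ) z := by
  obtain ⟨w, rfl⟩ := pi1_surjective x
  have h1 := subAt_of_psh hA hv (x := fun _ => w) (z := fun ζ => ζ) (c := z)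
    analyticAt_const analyticAt_id hz
  have h2 := h1.add_harmonic (N := fun _ => -‖w‖ ^ 2) (harmonicAt_const _)
  refine h2.congr (Eventually.of_forall fun ζ => ?_)
  ring

lemma usc_slice {S : Set ℂ} {v : XT → ℂ → ℝ}
    (h : UpperSemicontinuousOn (fun q : XT × ℂ => v q.1 q.2) (univ ×ˢ S)) (x : XT) :
    UpperSemicontinuousOn (fun z => v x z) S := by
  have h1 := h.comp (g := fun z : ℂ => ((x, z) : XT × ℂ)) (t := S)
    (Continuous.continuousOn (by fun_prop)) (fun z hz => ⟨mem_univ _, hz⟩)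
  exact h1

lemma geodesic_nonpos (h : IsWeakGeodesic gT pot1 pot2 a b φ) (x : XT) (z : ℂ)
    (hz : z ∈ closedAnnulus a b) : φ x z ≤ 0 := by
  refine max_principle' (isCompact_closedAnnulus a b) (isOpen_annulus a b) (annulus_subset a b)
    (u := fun z => φ x z) (H := fun _ => 0) (usc_slice (usc_closed h) x) continuousOn_const
    (fun _ _ => harmonicAt_const _) (fun ζ hζ => subAt_time (isOpen_annulus a b) h.psh x hζ)
    ?_ z hz
  intro ζ hζ hn
  rcases boundary_cases hζ hn with h1 | h1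
  · rw [h.inner x ζ h1]; exact pot1_nonpos x
  · rw [h.outer x ζ h1]; exact pot2_nonpos x

/-- the barrier -/
lemma barrier_psh {A : Set ℂ} (ε : ℝ) :
    IsOmegaPsh gT (univ ×ˢ A) (fun x _ => pot1 x + pot2 x - ε) := by
  apply psh_of_subAt
  · apply ContinuousOn.upperSemicontinuousOn
    have h1 : Continuous fun q : XT × ℂ => pot1 q.1 := continuous_pot1.comp continuous_fst
    have h2 : Continuous fun q : XT × ℂ => pot2 q.1 := continuous_pot2.comp continuous_fst
    exact ((h1.add h2).sub continuous_const).continuousOn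
  · intro x z c hx _ _
    refine (subAt_convex hasDerivAt_kf mono_kf' hasDerivAt_kf mono_kf' hx
      (harmonicAt_const (-ε))).congr (Eventually.of_forall fun ζ => ?_)
    simp only [pot1_pi, pot2_pi, norm_sq_re_im, kf]
    ring

/-- comparison with the barrier -/
lemma barrier_le (h : IsWeakGeodesic gT pot1 pot2 a b φ) (x : XT) (z : ℂ)
    (hz : z ∈ annulus a b) : pot1 x + pot2 x ≤ φ x z := by
  apply le_of_forall_sub_le
  intro ε hε
  set S : Set (XT × ℂ) := univ ×ˢ closedAnnulus a b with hS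
  have hSc : IsCompact S := isCompact_univ.prod (isCompact_closedAnnulus a b)
  set O : Set (XT × ℂ) := interior {q | q ∈ S → pot1 q.1 + pot2 q.1 - ε < φ q.1 q.2} with hO
  have hbd : ∀ q ∈ S, q ∉ univ ×ˢ annulus a b → q ∈ O := by
    rintro ⟨x, z⟩ ⟨_, hz⟩ hn
    have hn' : z ∉ annulus a b := fun hh => hn ⟨mem_univ _, hh⟩
    have hc := h.continuous_boundary x z (boundary_cases hz hn')
    have hval : pot1 x + pot2 x - ε < φ x z := by
      rcases boundary_cases hz hn' with h1 | h1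
      · rw [h.inner x z h1]; linarith [pot2_nonpos x]
      · rw [h.outer x z h1]; linarith [pot1_nonpos x]
    rw [hO, mem_interior_iff_mem_nhds]
    have h1 : Continuous fun q : XT × ℂ => pot1 q.1 + pot2 q.1 - ε := by
      have h1 : Continuous fun q : XT × ℂ => pot1 q.1 := continuous_pot1.comp continuous_fst
      have h2 : Continuous fun q : XT × ℂ => pot2 q.1 := continuous_pot2.comp continuous_fst
      exact (h1.add h2).sub continuous_const
    have h2 : ∀ᶠ q in 𝓝[S] (x, z), pot1 q.1 + pot2 q.1 - ε < φ q.1 q.2 :=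
      (h1.continuousAt.continuousWithinAt (s := S)).eventually_lt hc hval
    exact eventually_nhdsWithin_iff.1 h2
  have hmax := h.maximal (fun x _ => pot1 x + pot2 x - ε) (barrier_psh ε)
    ⟨S \ O, hSc.diff isOpen_interior, ?_, ?_⟩ (x, z) ⟨mem_univ _, hz⟩
  · exact hmax
  · intro q hq
    by_contra hn
    exact hq.2 (hbd q hq.1 hn)
  · intro q hq
    have hqS : q ∈ S := ⟨mem_univ _, annulus_subset a b hq.1.2⟩
    have hqO : q ∈ O := by
      by_contra hn
      exact hq.2 ⟨hqS, hn⟩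
    exact (interior_subset hqO hqS).le

lemma total_nonneg (h : IsWeakGeodesic gT pot1 pot2 a b φ) (w : ℂ) (z : ℂ)
    (hz : z ∈ annulus a b) : 0 ≤ ‖w‖ ^ 2 + φ (pi1 w) z := by
  have h1 := barrier_le h (pi1 w) z hz
  rw [pot1_pi, pot2_pi] at h1
  rw [norm_sq_re_im]
  have h2 := kf_nonneg w.re
  have h3 := kf_nonneg w.im
  unfold kf at h2 h3
  linarith

end Pool.Agent.H300R3.WG
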