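import Pool.Agent.H300R3.WG.Main1

set_option autoImplicit false
open scoped Manifold ContDiff Topology ComplexConjugate
open Set Metric InnerProductSpace Filter
open Pool.Agent.NKM

namespace Pool.Agent.H300R3.WG

variable {a b : ℝ} {φ : XT → ℂ → ℝ}

/-- At the point `0`, the total potential is `o(|w|²)`, at every interior time. -/
theorem small_bound (ha : 0 < a) (hab : a < b) (h : IsWeakGeodesic gT pot1 pot2 a b φ)
    {z : ℂ} (hz : z ∈ annulus a b) {η : ℝ} (hη : 0 < η) :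
    ∃ r₀ : ℝ, 0 < r₀ ∧ ∀ r : ℝ, 0 < r → r < r₀ → ∀ w : ℂ, ‖w‖ ≤ r →
      ‖w‖ ^ 2 + φ (pi1 w) z ≤ η * r ^ 2 := by
  have hpi := Real.pi_pos
  set l := Real.log a with hl
  set m := Real.log b with hmdef
  have hlm : l < m := Real.log_lt_log ha hab
  set T := m - l with hT
  have hT0 : 0 < T := by rw [hT]; linarith
  have hz0 : 0 < ‖z‖ := ha.trans hz.1
  set τ := Real.log ‖z‖ with hτ
  have hτ1 : l < τ := Real.log_lt_log ha hz.1
  have hτ2 : τ < m := Real.log_lt_log hz0 hz.2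
  set α := Complex.arg z with hα
  have hzexp : Complex.exp ((τ : ℂ) + α * Complex.I) = z := by
    rw [Complex.exp_add, ← Complex.ofReal_exp, Real.exp_log hz0]
    exact Complex.norm_mul_exp_arg_mul_I z
  set t := (τ - l) / T with ht
  have htT : t * T = τ - l := by rw [ht]; field_simp
  have ht0 : 0 < t := div_pos (by linarith) hT0
  have ht1 : t < 1 := by rw [ht, div_lt_one hT0, hT]; linarith
  set c₀ := min (Real.sin (Real.pi * t / 4)) (Real.sin (Real.pi * (1 - t) / 4)) with hc₀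
  have hc₀0 : 0 < c₀ := by
    rw [hc₀, lt_min_iff]
    constructor
    · apply Real.sin_pos_of_pos_of_lt_pi (by positivity); nlinarith
    · apply Real.sin_pos_of_pos_of_lt_pi
      · have : 0 < 1 - t := by linarith
        positivity
      · nlinarith
  set C := 1 / (2 * c₀ ^ 2) with hC
  have hC0 : 0 < C := by rw [hC]; positivity
  -- the choice of `γ`
  set γ := min (Real.pi / 16) (η / (12 * C)) with hγ
  have hγ0 : 0 < γ := by rw [hγ, lt_min_iff]; constructor <;> positivity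
  have hγ1 : γ ≤ Real.pi / 16 := min_le_left _ _
  have hγ2 : γ * (12 * C) ≤ η := by
    rw [← le_div_iff₀ (by positivity)]; exact min_le_right _ _
  set μ := (Real.pi / 2 - 2 * γ) / T with hμ
  have hμT : μ * T = Real.pi / 2 - 2 * γ := by rw [hμ]; field_simp
  have hμ0 : 0 < μ := by rw [hμ]; apply div_pos _ hT0; linarith
  set κ := (Real.pi - 2 * γ) / T with hκ
  have hκT : κ * T = Real.pi - 2 * γ := by rw [hκ]; field_simp
  have hκμ : 0 < κ - 2 * μ := by
    have h1 : (κ - 2 * μ) * T = 2 * γ := by rw [sub_mul, mul_assoc, hμT, hκT]; ring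
    by_contra hcon
    push Not at hcon
    nlinarith
  set sg := Real.sin γ with hsg
  have hsg0 : 0 < sg := Real.sin_pos_of_pos_of_lt_pi hγ0 (by linarith)
  have hcg : 1 / 2 ≤ Real.cos γ := by
    rw [← Real.cos_pi_div_three]
    exact Real.cos_le_cos_of_nonneg_of_le_pi hγ0.le (by linarith) (by linarith)
  have hA : 3 * sg ^ 2 / Real.sin (2 * γ) ≤ 3 * γ := by
    rw [Real.sin_two_mul, ← hsg]
    have h1 : 3 * sg ^ 2 / (2 * sg * Real.cos γ) = (3 * sg) / (2 * Real.cos γ) := by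
      field_simp
    rw [h1, div_le_iff₀ (by linarith)]
    have h2 : sg ≤ γ := Real.sin_le hγ0.le
    nlinarith
  -- the choice of the length
  obtain ⟨Y₀, hY₀0, hY₀⟩ : ∃ Y₀ : ℝ, 0 < Y₀ ∧ ∀ Y, Y₀ ≤ Y →
      (4 * C / sg) * Real.exp (-((κ - 2 * μ) * Y)) ≤ η / 2 := by
    have h1 : Tendsto (fun Y => (4 * C / sg) * Real.exp (-((κ - 2 * μ) * Y))) atTop (𝓝 0) := by
      have h2 : Tendsto (fun Y => Real.exp (-((κ - 2 * μ) * Y))) atTop (𝓝 0) :=
        Real.tendsto_exp_neg_atTop_nhds_zero.comp (tendsto_id.const_mul_atTop hκμ)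
      simpa using h2.const_mul (4 * C / sg)
    have h2 := (h1.eventually (ge_mem_nhds (show (0 : ℝ) < η / 2 by positivity)))
    obtain ⟨Y₁, hY₁⟩ := eventually_atTop.1 h2
    exact ⟨max Y₁ 1, lt_max_of_lt_right one_pos,
      fun Y hY => hY₁ Y ((le_max_left _ _).trans hY)⟩
  refine ⟨Real.sqrt (sg ^ 2 * Real.exp (-(2 * μ * Y₀)) / C), by positivity, ?_⟩
  intro r hr hr0 w hw
  have hr2 : C * r ^ 2 < sg ^ 2 * Real.exp (-(2 * μ * Y₀)) := by
    have h1 := (Real.lt_sqrt hr.le).1 hr0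
    rw [lt_div_iff₀ hC0] at h1
    linarith
  have hCr : 0 < C * r ^ 2 := by positivity
  set Y := Real.log (sg ^ 2 / (C * r ^ 2)) / (2 * μ) with hY
  have hexpY : Real.exp (2 * μ * Y) = sg ^ 2 / (C * r ^ 2) := by
    have h1 : 2 * μ * Y = Real.log (sg ^ 2 / (C * r ^ 2)) := by rw [hY]; field_simp
    rw [h1, Real.exp_log (by positivity)]
  have hYY : Y₀ ≤ Y := by
    have h1 : Real.exp (2 * μ * Y₀) ≤ Real.exp (2 * μ * Y) := by
      rw [hexpY, le_div_iff₀ hCr]
      have h2 : Real.exp (2 * μ * Y₀) * Real.exp (-(2 * μ * Y₀)) = 1 := by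
        rw [← Real.exp_add]; simp
      have h3 := Real.exp_pos (2 * μ * Y₀)
      calc Real.exp (2 * μ * Y₀) * (C * r ^ 2)
          ≤ Real.exp (2 * μ * Y₀) * (sg ^ 2 * Real.exp (-(2 * μ * Y₀))) := by gcongr
        _ = sg ^ 2 * (Real.exp (2 * μ * Y₀) * Real.exp (-(2 * μ * Y₀))) := by ring
        _ = sg ^ 2 := by rw [h2, mul_one]
    have h2 := Real.exp_le_exp.1 h1
    have h3 : 0 < 2 * μ := by positivity
    nlinarith
  have hY0 : 0 < Y := hY₀0.trans_le hYY
  -- the curve through `w`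
  set θ := μ * (τ - l) + γ with hθ
  have hθt : θ = (Real.pi / 2 - 2 * γ) * t + γ := by
    rw [hθ, ← htT, ← hμT]; ring
  have hθ1 : Real.pi * t / 4 ≤ θ := by rw [hθt]; nlinarith
  have hθ2 : Real.pi * (1 - t) / 4 ≤ Real.pi / 2 - θ := by rw [hθt]; nlinarith
  have hsinθ : c₀ ≤ Real.sin θ := by
    refine (min_le_left _ _).trans ?_
    apply Real.sin_le_sin_of_le_of_le_pi_div_two
    · have : 0 < Real.pi * t / 4 := by positivity
      linarith
    · have : 0 ≤ Real.pi * (1 - t) / 4 := by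
        have : 0 < 1 - t := by linarith
        positivity
      linarith
    · exact hθ1
  have hcosθ : c₀ ≤ Real.cos θ := by
    refine (min_le_right _ _).trans ?_
    rw [← Real.sin_pi_div_two_sub]
    apply Real.sin_le_sin_of_le_of_le_pi_div_two
    · have : 0 ≤ Real.pi * (1 - t) / 4 := by
        have : 0 < 1 - t := by linarith
        positivity
      linarith
    · have : 0 < Real.pi * t / 4 := by positivity
      linarith
    · exact hθ2
  have hsin0 : 0 < Real.sin θ := hc₀0.trans_le hsinθ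
  have hcos0 : 0 < Real.cos θ := hc₀0.trans_le hcosθ
  set P := (w.re / Real.cos θ - w.im / Real.sin θ) / 2 with hP
  set Q := (w.re / Real.cos θ + w.im / Real.sin θ) / 2 with hQ
  have hxw : xc P Q μ γ l (τ : ℂ) = w := by
    apply Complex.ext
    · rw [xc_re]
      simp only [Complex.ofReal_im, mul_zero, Real.exp_zero, neg_zero, mul_one, Complex.ofReal_re]
      rw [← hθ, hP, hQ]
      field_simp
      ring
    · rw [xc_im]
      simp only [Complex.ofReal_im, mul_zero, Real.exp_zero, neg_zero, mul_one, Complex.ofReal_re]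
      rw [← hθ, hP, hQ]
      field_simp
      ring
  have hPQ : P ^ 2 + Q ^ 2 ≤ C * r ^ 2 := by
    have h1 : P ^ 2 + Q ^ 2 = (w.re ^ 2 / Real.cos θ ^ 2 + w.im ^ 2 / Real.sin θ ^ 2) / 2 := by
      rw [hP, hQ]; field_simp; ring
    have h2 : w.re ^ 2 / Real.cos θ ^ 2 ≤ w.re ^ 2 / c₀ ^ 2 := by gcongr
    have h3 : w.im ^ 2 / Real.sin θ ^ 2 ≤ w.im ^ 2 / c₀ ^ 2 := by gcongr
    have h4 : ‖w‖ ^ 2 ≤ r ^ 2 := pow_le_pow_left₀ (norm_nonneg _) hw 2
    rw [norm_sq_re_im] at h4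
    rw [h1]
    calc (w.re ^ 2 / Real.cos θ ^ 2 + w.im ^ 2 / Real.sin θ ^ 2) / 2
        ≤ (w.re ^ 2 / c₀ ^ 2 + w.im ^ 2 / c₀ ^ 2) / 2 := by linarith
      _ = C * (w.re ^ 2 + w.im ^ 2) := by rw [hC]; field_simp
      _ ≤ C * r ^ 2 := by gcongr
  have hen : (P ^ 2 + Q ^ 2) * Real.exp (2 * μ * Y) ≤ sg ^ 2 := by
    rw [hexpY]
    calc (P ^ 2 + Q ^ 2) * (sg ^ 2 / (C * r ^ 2)) ≤ (C * r ^ 2) * (sg ^ 2 / (C * r ^ 2)) := by
          gcongr
      _ = sg ^ 2 := by field_simp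
  have key := disc_bound ha hab h.psh (usc_closed h) h.inner h.outer (geodesic_nonpos h)
    hγ0 (by linarith) P Q Y hY0 α τ hτ1 hτ2 hen
  rw [← hl, ← hmdef, ← hT, ← hμ, ← hκ, hxw, hzexp, ← hsg] at key
  refine key.trans ?_
  have hB : 2 * sg / Real.cosh (κ * Y) ≤ (η / 2) * r ^ 2 := by
    have h1 : Real.exp (κ * Y) / 2 ≤ Real.cosh (κ * Y) := by
      rw [Real.cosh_eq]; linarith [Real.exp_pos (-(κ * Y))]
    have h2 : 2 * sg / Real.cosh (κ * Y) ≤ 2 * sg / (Real.exp (κ * Y) / 2) := by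
      gcongr
    have h3 : 2 * sg / (Real.exp (κ * Y) / 2) = 4 * sg * Real.exp (-(κ * Y)) := by
      rw [Real.exp_neg]; field_simp; ring
    have h4 : Real.exp (-(κ * Y)) = Real.exp (-((κ - 2 * μ) * Y)) * Real.exp (-(2 * μ * Y)) := by
      rw [← Real.exp_add]; ring_nf
    have h5 : Real.exp (-(2 * μ * Y)) = C * r ^ 2 / sg ^ 2 := by
      rw [Real.exp_neg, hexpY, inv_div]
    have h6 := hY₀ Y hYY
    calc 2 * sg / Real.cosh (κ * Y) ≤ 4 * sg * Real.exp (-(κ * Y)) := by rw [← h3]; exact h2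
      _ = ((4 * C / sg) * Real.exp (-((κ - 2 * μ) * Y))) * r ^ 2 := by
        rw [h4, h5]; field_simp
      _ ≤ (η / 2) * r ^ 2 := by gcongr
  have hA2 : 3 * sg ^ 2 / Real.sin (2 * γ) * (P ^ 2 + Q ^ 2) ≤ (η / 2) * r ^ 2 := by
    calc 3 * sg ^ 2 / Real.sin (2 * γ) * (P ^ 2 + Q ^ 2)
        ≤ 3 * γ * (C * r ^ 2) := by gcongr
      _ = (γ * (12 * C)) / 4 * r ^ 2 := by ring
      _ ≤ η / 4 * r ^ 2 := by gcongr
      _ ≤ (η / 2) * r ^ 2 := by
        have : 0 ≤ r ^ 2 := sq_nonneg r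
        nlinarith
  linarith

end Pool.Agent.H300R3.WG
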