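import Pool.Agent.H300R3.WG.Lift

set_option autoImplicit false
open scoped Manifold ContDiff Topology ComplexConjugate
open Set Metric InnerProductSpace Filter
open Pool.Agent.NKM

namespace Pool.Agent.H300R3.WG

/-- the first potential, `2 cos x₁ - 2 = -4 sin²(x₁/2)` -/
noncomputable def pot1 : XT → ℝ :=
  Quotient.lift (s := MulAction.orbitRel Lam E1) (fun p : E1 => 2 * Real.cos (p 0).re - 2) (by
    rintro p q ⟨g, rfl⟩
    have h : (g • q) 0 = q 0 + lat g := rfl
    change 2 * Real.cos ((g • q) 0).re - 2 = 2 * Real.cos (q 0).re - 2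
    rw [h, Complex.add_re, lat_re]
    have h2 : (q 0).re + 2 * Real.pi * ((Multiplicative.toAdd g).1 : ℝ)
        = (q 0).re + ((Multiplicative.toAdd g).1 : ℤ) * (2 * Real.pi) := by ring
    rw [h2, Real.cos_add_int_mul_two_pi])

/-- the second potential, `2 cos x₂ - 2 = -4 sin²(x₂/2)` -/
noncomputable def pot2 : XT → ℝ :=
  Quotient.lift (s := MulAction.orbitRel Lam E1) (fun p : E1 => 2 * Real.cos (p 0).im - 2) (by
    rintro p q ⟨g, rfl⟩
    have h : (g • q) 0 = q 0 + lat g := rfl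
    change 2 * Real.cos ((g • q) 0).im - 2 = 2 * Real.cos (q 0).im - 2
    rw [h, Complex.add_im, lat_im]
    have h2 : (q 0).im + 2 * Real.pi * ((Multiplicative.toAdd g).2 : ℝ)
        = (q 0).im + ((Multiplicative.toAdd g).2 : ℤ) * (2 * Real.pi) := by ring
    rw [h2, Real.cos_add_int_mul_two_pi])

lemma pot1_pr (p : E1) : pot1 (pr p) = 2 * Real.cos (p 0).re - 2 := rfl
lemma pot2_pr (p : E1) : pot2 (pr p) = 2 * Real.cos (p 0).im - 2 := rfl
lemma pot1_pi (w : ℂ) : pot1 (pi1 w) = 2 * Real.cos w.re - 2 := rfl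
lemma pot2_pi (w : ℂ) : pot2 (pi1 w) = 2 * Real.cos w.im - 2 := rfl

lemma pot1_nonpos (x : XT) : pot1 x ≤ 0 := by
  obtain ⟨w, rfl⟩ := pi1_surjective x
  rw [pot1_pi]; linarith [Real.cos_le_one w.re]

lemma pot2_nonpos (x : XT) : pot2 x ≤ 0 := by
  obtain ⟨w, rfl⟩ := pi1_surjective x
  rw [pot2_pi]; linarith [Real.cos_le_one w.im]

lemma pot1_ge (x : XT) : -4 ≤ pot1 x := by
  obtain ⟨w, rfl⟩ := pi1_surjective x
  rw [pot1_pi]; linarith [Real.neg_one_le_cos w.re]

lemma pot2_ge (x : XT) : -4 ≤ pot2 x := by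
  obtain ⟨w, rfl⟩ := pi1_surjective x
  rw [pot2_pi]; linarith [Real.neg_one_le_cos w.im]

lemma continuous_pot1 : Continuous pot1 := by
  apply pr_cov.toIsQuotientMap.continuous_iff.2
  have : (pot1 ∘ pr) = fun p : E1 => 2 * Real.cos (p 0).re - 2 := rfl
  rw [this]; fun_prop

lemma continuous_pot2 : Continuous pot2 := by
  apply pr_cov.toIsQuotientMap.continuous_iff.2
  have : (pot2 ∘ pr) = fun p : E1 => 2 * Real.cos (p 0).im - 2 := rfl
  rw [this]; fun_prop

lemma hasDerivAt_qc (x : ℝ) : HasDerivAt (fun x : ℝ => 2 * Real.cos x - 2) (-2 * Real.sin x) x := by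
  have := ((Real.hasDerivAt_cos x).const_mul 2).sub_const 2
  refine this.congr_deriv ?_; ring

lemma hasDerivAt_qc' (x : ℝ) : HasDerivAt (fun x : ℝ => -2 * Real.sin x) (-2 * Real.cos x) x :=
  (Real.hasDerivAt_sin x).const_mul (-2)

lemma hasDerivAt_zero' (x : ℝ) : HasDerivAt (fun _ : ℝ => (0 : ℝ)) 0 x := hasDerivAt_const x 0

lemma isKahlerPotential_aux {φ : XT → ℝ} {Q R Q' R' Q'' R'' : ℝ → ℝ}
    (hφ : ∀ p : E1, φ (pr p) = Q (p 0).re + R (p 0).im)
    (hQc : ContDiff ℝ ∞ Q) (hRc : ContDiff ℝ ∞ R)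
    (hQ : ∀ x, HasDerivAt Q (Q' x) x)
    (hR : ∀ x, HasDerivAt R (R' x) x) (hQ' : ∀ x, HasDerivAt Q' (Q'' x) x)
    (hR' : ∀ x, HasDerivAt R' (R'' x) x) (hpos : ∀ x y, 0 < 1 + (Q'' x + R'' y) / 4) :
    IsKahlerPotential gT φ := by
  constructor
  · intro e he
    have h : (fun p => φ (e.symm p)) = fun p : E1 => Q (p 0).re + R (p 0).im := by
      funext p; rw [chart_symm e he, hφ]
    rw [h]
    have h1 : ContDiff ℝ ∞ (fun p : E1 => (p 0).re) :=
      Complex.reCLM.contDiff.comp (contDiff_apply ℝ ℂ 0)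
    have h2 : ContDiff ℝ ∞ (fun p : E1 => (p 0).im) :=
      Complex.imCLM.contDiff.comp (contDiff_apply ℝ ℂ 0)
    exact ((hQc.comp h1).add (hRc.comp h2)).contDiffOn
  · intro e he p hp v hv
    have h : (fun p => φ (e.symm p)) = fun p : E1 => Q (p 0).re + R (p 0).im := by
      funext p; rw [chart_symm e he, hφ]
    rw [hermForm_fin1, HermitianMetric.perturb, h, levi_sep hQ hR hQ' hR']
    have h0 : v 0 ≠ 0 := by
      intro h
      apply hv
      funext i
      rw [Subsingleton.elim i 0, h]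
      rfl
    have h1 : gT.coeff e p = 1 := rfl
    rw [h1, mul_assoc, Complex.mul_conj, Matrix.add_apply, Matrix.one_apply_eq, Matrix.of_apply,
      show (1 : ℂ) = ((1 : ℝ) : ℂ) by norm_num, ← Complex.ofReal_add, ← Complex.ofReal_mul,
      Complex.ofReal_re]
    exact mul_pos (hpos _ _) (Complex.normSq_pos.2 h0)

theorem isKahlerPotential_pot1 : IsKahlerPotential gT pot1 := by
  refine isKahlerPotential_aux (Q := fun x => 2 * Real.cos x - 2) (R := fun _ => 0)
    (fun p => by rw [pot1_pr, add_zero]) ?_ contDiff_const hasDerivAt_qc hasDerivAt_zero'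
    hasDerivAt_qc' hasDerivAt_zero' ?_
  · exact (contDiff_const.mul Real.contDiff_cos).sub contDiff_const
  · intro x y; linarith [Real.cos_le_one x]

theorem isKahlerPotential_pot2 : IsKahlerPotential gT pot2 := by
  refine isKahlerPotential_aux (Q := fun _ => 0) (R := fun x => 2 * Real.cos x - 2)
    (fun p => by rw [pot2_pr, zero_add]) contDiff_const ?_ hasDerivAt_zero' hasDerivAt_qc
    hasDerivAt_zero' hasDerivAt_qc' ?_
  · exact (contDiff_const.mul Real.contDiff_cos).sub contDiff_const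
  · intro x y; linarith [Real.cos_le_one y]

/-- `k(s) = s² + 2 cos s - 2` -/
noncomputable def kf (s : ℝ) : ℝ := s ^ 2 + (2 * Real.cos s - 2)

lemma kf_nonneg (s : ℝ) : 0 ≤ kf s := by
  have := @Real.one_sub_sq_div_two_le_cos s
  unfold kf; linarith

lemma kf_le {s : ℝ} (hs : |s| ≤ 1) : kf s ≤ s ^ 4 / 9 := by
  have h := (abs_le.1 (Real.cos_bound hs)).2
  have h2 : |s| ^ 4 = s ^ 4 := by
    rw [show (4 : ℕ) = 2 * 2 by norm_num, pow_mul, pow_mul, sq_abs]
  rw [h2] at h
  have h3 : 0 ≤ s ^ 4 := by positivity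
  unfold kf; linarith

lemma hasDerivAt_kf (s : ℝ) : HasDerivAt kf (2 * s - 2 * Real.sin s) s := by
  have := (hasDerivAt_sq' s).add (hasDerivAt_qc s)
  refine this.congr_deriv ?_; ring

/-- supporting lines -/
lemma support_line {Q Q' : ℝ → ℝ} (hQ : ∀ x, HasDerivAt Q (Q' x) x) (hm : Monotone Q')
    (s₀ s : ℝ) : Q s₀ + Q' s₀ * (s - s₀) ≤ Q s := by
  rcases lt_trichotomy s₀ s with h | h | h
  · obtain ⟨c, hc, hc2⟩ := exists_hasDerivAt_eq_slope Q Q' h
      (fun x _ => (hQ x).continuousAt.continuousWithinAt) (fun x _ => hQ x)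
    have h1 : Q' s₀ ≤ Q' c := hm hc.1.le
    have h2 : 0 < s - s₀ := by linarith
    rw [eq_div_iff h2.ne'] at hc2
    nlinarith
  · rw [h]; simp
  · obtain ⟨c, hc, hc2⟩ := exists_hasDerivAt_eq_slope Q Q' h
      (fun x _ => (hQ x).continuousAt.continuousWithinAt) (fun x _ => hQ x)
    have h1 : Q' c ≤ Q' s₀ := hm hc.2.le
    have h2 : 0 < s₀ - s := by linarith
    rw [eq_div_iff h2.ne'] at hc2
    nlinarith

lemma mono_kf' : Monotone (fun s => 2 * s - 2 * Real.sin s) := by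
  apply monotone_of_deriv_nonneg
  · intro s; fun_prop
  · intro s
    have : HasDerivAt (fun s => 2 * s - 2 * Real.sin s) (2 - 2 * Real.cos s) s :=
      (hasDerivAt_two_mul s).sub ((Real.hasDerivAt_sin s).const_mul 2)
    rw [this.deriv]
    linarith [Real.cos_le_one s]

lemma mono_sq' : Monotone (fun s : ℝ => 2 * s) := fun a b h => by
  change 2 * a ≤ 2 * b; linarith

/-- a convex function of a holomorphic function plus a harmonic function is subharmonic -/
lemma subAt_convex {Q Q' R R' : ℝ → ℝ} (hQ : ∀ x, HasDerivAt Q (Q' x) x) (hm : Monotone Q')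
    (hR : ∀ x, HasDerivAt R (R' x) x) (hmR : Monotone R') {x : ℂ → ℂ} {N : ℂ → ℝ} {c : ℂ}
    (hx : AnalyticAt ℂ x c) (hN : HarmonicAt N c) :
    SubAt (fun ζ => Q (x ζ).re + R (x ζ).im + N ζ) c := by
  apply SubAt.add_harmonic _ hN
  set w := x c with hw
  have h1 : AnalyticAt ℂ (fun ζ => ((Q' w.re : ℝ) : ℂ) * (x ζ - w)
      + (-Complex.I) * ((R' w.im : ℝ) : ℂ) * (x ζ - w) + (((Q w.re + R w.im : ℝ)) : ℂ)) c := by
    fun_prop
  apply subAt_of_support h1.harmonicAt_re
  · rw [← hw]; simp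
  · filter_upwards with ζ
    have e1 := support_line hQ hm w.re (x ζ).re
    have e2 := support_line hR hmR w.im (x ζ).im
    simp only [Complex.add_re, Complex.mul_re, Complex.ofReal_re, Complex.ofReal_im,
      Complex.sub_re, Complex.sub_im, Complex.neg_re, Complex.neg_im, Complex.I_re, Complex.I_im,
      Complex.mul_im]
    nlinarith

end Pool.Agent.H300R3.WG
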