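import Pool.Agent.H300R3.WG.Main2

set_option autoImplicit false
open scoped Manifold ContDiff Topology ComplexConjugate
open Set Metric InnerProductSpace Filter MeasureTheory
open Pool.Agent.NKM

namespace Pool.Agent.H300R3.WG

/-- a quarter of the Laplacian -/
noncomputable def lq (χ : ℂ → ℝ) (w : ℂ) : ℝ := Laplacian.laplacian χ w / 4

lemma lq_eq (χ : ℂ → ℝ) (w : ℂ) : lq χ w =
    (iteratedFDeriv ℝ 2 χ w ![1, 1] + iteratedFDeriv ℝ 2 χ w ![Complex.I, Complex.I]) / 4 := by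
  unfold lq
  rw [laplacian_eq_iteratedFDeriv_complexPlane]

lemma second_eq {χ : ℂ → ℝ} (hχ : ContDiff ℝ ∞ χ) (w v : ℂ) :
    iteratedFDeriv ℝ 2 χ w ![v, v] = fderiv ℝ (fun y => fderiv ℝ χ y v) w v := by
  rw [iteratedFDeriv_two_apply]
  have h1 : DifferentiableAt ℝ (fderiv ℝ χ) w :=
    ((hχ.fderiv_right (m := ∞) (by simp)).differentiable (by simp)).differentiableAt
  rw [fderiv_clm_apply h1 (by fun_prop)]
  simp

lemma hcs_fderiv {χ : ℂ → ℝ} (hc : HasCompactSupport χ) (v : ℂ) :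
    HasCompactSupport fun y => fderiv ℝ χ y v := by
  refine (hc.fderiv (𝕜 := ℝ)).mono' ?_
  intro x hx
  apply subset_closure
  simp only [Function.mem_support, ne_eq] at hx ⊢
  intro h0
  apply hx
  simp [h0]

lemma contDiff_fderiv {χ : ℂ → ℝ} (hχ : ContDiff ℝ ∞ χ) (v : ℂ) :
    ContDiff ℝ ∞ fun y => fderiv ℝ χ y v := by
  have h : ContDiff ℝ ∞ (fderiv ℝ χ) := hχ.fderiv_right (by simp)
  exact h.clm_apply contDiff_const

lemma fderiv_nsq (y v : ℂ) :
    fderiv ℝ (fun w : ℂ => ‖w‖ ^ 2) y v = 2 * y.re * v.re + 2 * y.im * v.im := by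
  have h : (fun w : ℂ => ‖w‖ ^ 2) = fun w : ℂ => w.re ^ 2 + w.im ^ 2 := by
    funext w; exact norm_sq_re_im w
  rw [h, (hasFDerivAt_sep hasDerivAt_sq' hasDerivAt_sq' y).fderiv]
  simp

lemma fderiv_lin (y v : ℂ) :
    fderiv ℝ (fun y : ℂ => 2 * y.re * v.re + 2 * y.im * v.im) y v = 2 * ‖v‖ ^ 2 := by
  have h1 : HasFDerivAt (fun y : ℂ => 2 * y.re * v.re + 2 * y.im * v.im)
      ((2 * v.re) • Complex.reCLM + (2 * v.im) • Complex.imCLM) y := by
    have e1 := (Complex.reCLM.hasFDerivAt (x := y)).const_mul (2 * v.re)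
    have e2 := (Complex.imCLM.hasFDerivAt (x := y)).const_mul (2 * v.im)
    refine (e1.add e2).congr_of_eventuallyEq (Eventually.of_forall fun w => ?_)
    simp; ring
  rw [h1.fderiv, norm_sq_re_im]
  simp; ring

lemma ibp (χ : ℂ → ℝ) (hχ : ContDiff ℝ ∞ χ) (hc : HasCompactSupport χ) (v : ℂ) :
    ∫ w : ℂ, ‖w‖ ^ 2 * iteratedFDeriv ℝ 2 χ w ![v, v] = 2 * ‖v‖ ^ 2 * ∫ w, χ w := by
  have hcn : ContDiff ℝ ∞ (fun z : ℂ => ‖z‖ ^ 2) := contDiff_norm_sq ℝ
  have hχ1 := contDiff_fderiv hχ v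
  have hc1 := hcs_fderiv hc v
  have hχ2 := contDiff_fderiv hχ1 v
  have hc2 := hcs_fderiv hc1 v
  simp only [second_eq hχ]
  have hf1 : Continuous fun y : ℂ => 2 * y.re * v.re + 2 * y.im * v.im := by fun_prop
  have step1 := integral_mul_fderiv_eq_neg_fderiv_mul_of_integrable
    (μ := (volume : Measure ℂ)) (f := fun w : ℂ => ‖w‖ ^ 2) (g := fun y => fderiv ℝ χ y v) (v := v)
    (by
      simp only [fderiv_nsq]
      exact (hf1.mul hχ1.continuous).integrable_of_hasCompactSupport hc1.mul_left)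
    ((hcn.continuous.mul hχ2.continuous).integrable_of_hasCompactSupport hc2.mul_left)
    ((hcn.continuous.mul hχ1.continuous).integrable_of_hasCompactSupport hc1.mul_left)
    (fun x _ => (hcn.differentiable (by simp)).differentiableAt)
    (fun x _ => (hχ1.differentiable (by simp)).differentiableAt)
  rw [step1]
  simp only [fderiv_nsq]
  have step2 := integral_mul_fderiv_eq_neg_fderiv_mul_of_integrable
    (μ := (volume : Measure ℂ)) (f := fun y : ℂ => 2 * y.re * v.re + 2 * y.im * v.im)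
    (g := χ) (v := v)
    (by
      simp only [fderiv_lin]
      exact (continuous_const.mul hχ.continuous).integrable_of_hasCompactSupport hc.mul_left)
    ((hf1.mul hχ1.continuous).integrable_of_hasCompactSupport hc1.mul_left)
    ((hf1.mul hχ.continuous).integrable_of_hasCompactSupport hc.mul_left)
    (fun x _ => by
      have e1 := (Complex.reCLM.hasFDerivAt (x := x)).const_mul (2 * v.re)
      have e2 := (Complex.imCLM.hasFDerivAt (x := x)).const_mul (2 * v.im)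
      refine ((e1.add e2).congr_of_eventuallyEq (Eventually.of_forall fun w => ?_)).differentiableAt
      simp; ring)
    (fun x _ => (hχ.differentiable (by simp)).differentiableAt)
  rw [step2]
  simp only [fderiv_lin]
  rw [integral_const_mul, neg_neg]

lemma contDiff_lq {χ : ℂ → ℝ} (hχ : ContDiff ℝ ∞ χ) : Continuous (lq χ) := by
  have h : lq χ = fun w => (fderiv ℝ (fun y => fderiv ℝ χ y 1) w 1 +
      fderiv ℝ (fun y => fderiv ℝ χ y Complex.I) w Complex.I) / 4 := by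
    funext w; rw [lq_eq, second_eq hχ, second_eq hχ]
  rw [h]
  have h1 := (contDiff_fderiv (contDiff_fderiv hχ 1) 1).continuous
  have h2 := (contDiff_fderiv (contDiff_fderiv hχ Complex.I) Complex.I).continuous
  exact (h1.add h2).div_const 4

lemma hcs_lq {χ : ℂ → ℝ} (hχ : ContDiff ℝ ∞ χ) (hc : HasCompactSupport χ) :
    HasCompactSupport (lq χ) := by
  have h : lq χ = fun w => (fderiv ℝ (fun y => fderiv ℝ χ y 1) w 1 +
      fderiv ℝ (fun y => fderiv ℝ χ y Complex.I) w Complex.I) * (1 / 4) := by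
    funext w; rw [lq_eq, second_eq hχ, second_eq hχ]; ring
  rw [h]
  exact ((hcs_fderiv (hcs_fderiv hc 1) 1).add (hcs_fderiv (hcs_fderiv hc Complex.I) Complex.I)).mul_right

lemma ibp_lq (χ : ℂ → ℝ) (hχ : ContDiff ℝ ∞ χ) (hc : HasCompactSupport χ) :
    ∫ w : ℂ, ‖w‖ ^ 2 * lq χ w = ∫ w, χ w := by
  have hcn : ContDiff ℝ ∞ (fun z : ℂ => ‖z‖ ^ 2) := contDiff_norm_sq ℝ
  have hint : ∀ v : ℂ, Integrable fun w : ℂ => ‖w‖ ^ 2 * iteratedFDeriv ℝ 2 χ w ![v, v] := by
    intro v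
    simp only [second_eq hχ]
    exact (hcn.continuous.mul (contDiff_fderiv (contDiff_fderiv hχ v) v).continuous
      ).integrable_of_hasCompactSupport (hcs_fderiv (hcs_fderiv hc v) v).mul_left
  have h1 : ∀ w : ℂ, ‖w‖ ^ 2 * lq χ w = (1 / 4) * (‖w‖ ^ 2 * iteratedFDeriv ℝ 2 χ w ![1, 1] +
      ‖w‖ ^ 2 * iteratedFDeriv ℝ 2 χ w ![Complex.I, Complex.I]) := by
    intro w; rw [lq_eq]; ring
  simp only [h1]
  rw [integral_const_mul, integral_add (hint 1) (hint Complex.I), ibp χ hχ hc 1,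
    ibp χ hχ hc Complex.I]
  simp
  ring

lemma lq_scale {χ : ℂ → ℝ} (hχ : ContDiff ℝ ∞ χ) (s : ℝ) (c w : ℂ) :
    lq (fun w => χ (s • (w - c))) w = s ^ 2 * lq χ (s • (w - c)) := by
  have hg : ∀ v : ℂ, iteratedFDeriv ℝ 2 (fun w => χ (s • (w - c))) w ![v, v] =
      s ^ 2 * iteratedFDeriv ℝ 2 χ (s • (w - c)) ![v, v] := by
    intro v
    have h1 := iteratedFDeriv_comp_sub (𝕜 := ℝ) (f := fun w => χ (s • w)) 2 c w
    rw [h1]
    have h2 := ContinuousLinearMap.iteratedFDeriv_comp_right (s • ContinuousLinearMap.id ℝ ℂ)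
      hχ (w - c) (i := 2) (by norm_cast)
    have h3 : (χ ∘ (s • ContinuousLinearMap.id ℝ ℂ)) = fun w => χ (s • w) := by
      funext w; simp
    rw [h3] at h2
    rw [h2, ContinuousMultilinearMap.compContinuousLinearMap_apply]
    have h4 : (fun i => (s • ContinuousLinearMap.id ℝ ℂ) ((![v, v] : Fin 2 → ℂ) i)) =
        fun i => (fun _ : Fin 2 => s) i • (![v, v] : Fin 2 → ℂ) i := by
      funext i; simp
    rw [h4, ContinuousMultilinearMap.map_smul_univ]
    simp
  rw [lq_eq, lq_eq, hg, hg]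
  ring

end Pool.Agent.H300R3.WG
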