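import Pool.Agent.H300R3.WG.Defs

set_option autoImplicit false
open scoped Manifold ContDiff Topology
open Set Metric MeasureTheory InnerProductSpace Filter
open Pool.Agent.NKM

namespace Pool.Agent.H300R3.WG

variable {n : ℕ} {X : Type} [TopologicalSpace X] [ChartedSpace (Fin n → ℂ) X]

lemma psh_sub_const {g : HermitianMetric n X} {G : Set (X × ℂ)} {φ : X → ℂ → ℝ}
    (h : IsOmegaPsh g G φ) (ε : ℝ) : IsOmegaPsh g G (fun x z => φ x z - ε) := by
  refine ⟨?_, ?_⟩
  · have h1 : UpperSemicontinuousOn (fun _ : X × ℂ => -ε) G :=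
      continuousOn_const.upperSemicontinuousOn
    exact h.usc.add h1
  · intro e V ρ hρ c r f z H hr hf hz hH hmem hb
    have h1 := h.sub e V ρ hρ c r f z (fun ζ => H ζ + ε) hr hf hz
      (hH.add fun ζ _ => harmonicAt_const _) hmem (fun ζ hζ => by
        have := hb ζ hζ
        linarith)
    linarith

/-- one inequality -/
lemma weakGeodesic_le [CompactSpace X] {g : HermitianMetric n X} {φ₁ φ₂ : X → ℝ} {a b : ℝ}
    {φ ψ : X → ℂ → ℝ} (h : IsWeakGeodesic g φ₁ φ₂ a b φ) (h' : IsWeakGeodesic g φ₁ φ₂ a b ψ)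
    (x : X) (z : ℂ) (hz : z ∈ closedAnnulus a b) : ψ x z ≤ φ x z := by
  have hcases : ∀ z : ℂ, z ∈ closedAnnulus a b → z ∉ annulus a b → ‖z‖ = a ∨ ‖z‖ = b := by
    intro z hz hn
    by_contra hcon
    push Not at hcon
    exact hn ⟨lt_of_le_of_ne hz.1 (Ne.symm hcon.1), lt_of_le_of_ne hz.2 hcon.2⟩
  have hcompact : IsCompact (closedAnnulus a b) := by
    have h1 : closedAnnulus a b = (fun z : ℂ => ‖z‖) ⁻¹' Icc a b := rfl
    apply (isCompact_closedBall (0 : ℂ) b).of_isClosed_subset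
    · rw [h1]; exact isClosed_Icc.preimage continuous_norm
    · intro z hz
      rw [mem_closedBall_zero_iff]; exact hz.2
  have hval : ∀ (x : X) (z : ℂ), ‖z‖ = a ∨ ‖z‖ = b → ψ x z = φ x z := by
    intro x z hz
    rcases hz with hz | hz
    · rw [h.inner x z hz, h'.inner x z hz]
    · rw [h.outer x z hz, h'.outer x z hz]
  by_cases hza : z ∈ annulus a b
  · apply le_of_forall_sub_le
    intro ε hε
    set S : Set (X × ℂ) := univ ×ˢ closedAnnulus a b with hS
    have hSc : IsCompact S := isCompact_univ.prod hcompact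
    set O : Set (X × ℂ) := interior {q | q ∈ S → ψ q.1 q.2 - ε < φ q.1 q.2} with hO
    have hbd : ∀ q ∈ S, q ∉ univ ×ˢ annulus a b → q ∈ O := by
      rintro ⟨x, z⟩ ⟨_, hz⟩ hn
      have hn' : z ∉ annulus a b := fun hh => hn ⟨mem_univ _, hh⟩
      have hc := h.continuous_boundary x z (hcases z hz hn')
      have hc' := h'.continuous_boundary x z (hcases z hz hn')
      have hv : ψ x z - ε < φ x z := by
        rw [hval x z (hcases z hz hn')]; linarith
      rw [hO, mem_interior_iff_mem_nhds]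
      have h2 : ∀ᶠ q in 𝓝[S] (x, z), ψ q.1 q.2 - ε < φ q.1 q.2 :=
        (hc'.sub continuousWithinAt_const).eventually_lt hc hv
      exact eventually_nhdsWithin_iff.1 h2
    have hmax := h.maximal (fun x z => ψ x z - ε) (psh_sub_const h'.psh ε)
      ⟨S \ O, hSc.diff isOpen_interior, ?_, ?_⟩ (x, z) ⟨mem_univ _, hza⟩
    · exact hmax
    · intro q hq
      by_contra hn
      exact hq.2 (hbd q hq.1 hn)
    · intro q hq
      have hqS : q ∈ S := ⟨mem_univ _, hq.1.2.1.le, hq.1.2.2.le⟩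
      have hqO : q ∈ O := by
        by_contra hn
        exact hq.2 ⟨hqS, hn⟩
      exact (interior_subset hqO hqS).le
  · exact (hval x z (hcases z hz hza)).le

/-- the weak geodesic is unique -/
theorem weakGeodesic_unique [CompactSpace X] {g : HermitianMetric n X} {φ₁ φ₂ : X → ℝ} {a b : ℝ}
    {φ ψ : X → ℂ → ℝ} (h : IsWeakGeodesic g φ₁ φ₂ a b φ) (h' : IsWeakGeodesic g φ₁ φ₂ a b ψ)
    (x : X) (z : ℂ) (hz : z ∈ closedAnnulus a b) : φ x z = ψ x z :=
  le_antisymm (weakGeodesic_le h' h x z hz) (weakGeodesic_le h h' x z hz)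

end Pool.Agent.H300R3.WG
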